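import Pool.Agent.Lib.H87.HopfHP.B2

/-!
# H87 HopfHP Core: `T > 0` on `Λ²(W)` for the hyperplane `W` of the first `2n - 1` basis vectors and `T ≥ 0` on all
complex decomposable two-vectors imply `E |Pf κ|² ≥ 0`
-/

open MvPolynomial
open scoped ComplexOrder

namespace H87HP

open H2K (qf W hPf ix push TU)

variable (n : ℕ) [NeZero n]

theorem c_detT (v : Fin (2 * n) × Fin (2 * n) → ℂ) (hv : ∀ p q, v (p, q) = -v (q, p)) :
    eval v (detT LL (eP n)) = (Matrix.of fun p q => v (wi n p, wi n q)).det := by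
  rw [a3_detT]
  congr 1
  exact TT_skew (Matrix.of fun p q => v (wi n p, wi n q)) (fun i j => hv _ _)

/-- the honest factors of `det K · Pf κ` when `κ(w_0, w_p) = 0` -/
theorem c_poly : ∃ (f : MvPolynomial (Fin 1 × Fin 1) ℂ) (g : MvPolynomial (Fin (kk n) × Fin (kk n)) ℂ),
    ∀ v : Fin (2 * n) × Fin (2 * n) → ℂ, (∀ p q, v (p, q) = -v (q, p)) →
      (∀ p q : Fin (2 * n), p.val < 1 → q.val < 2 * n - 1 → v (p, q) = 0) →
      eval v (detT LL (eP n) * hPf n) =
        eval (fun t => v (H2K.jj n 1 (Sum.inl t))) f * eval (fun t => v (H2K.jj n 1 (Sum.inr t))) g := by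
  have hn : 0 < n := Nat.pos_of_ne_zero (NeZero.ne n)
  refine ⟨X (0, 0), Matrix.det (Matrix.of fun p q : Fin (kk n) => (X (p, q) :
    MvPolynomial (Fin (kk n) × Fin (kk n)) ℂ)) * bind₁ (H2K.i3a_psi n 1) (hPf n), ?_⟩
  intro v hskew hzero
  have hP : (fun c => eval (fun t => v (H2K.jj n 1 (Sum.inr t))) (H2K.i3a_psi n 1 c)) = H2K.stdK n 1 v := by
    funext c
    unfold H2K.i3a_psi H2K.stdK
    by_cases h1 : 1 ≤ c.1.val ∧ 1 ≤ c.2.val ∧ c.1.val < 2 * n - 1 ∧ c.2.val < 2 * n - 1
    · rw [dif_pos h1, if_pos h1, eval_X]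
      simp only [H2K.jj]
      congr 1
      apply Prod.ext
      · apply Fin.ext
        simp only
        rw [H2K.i0_ix n _ (by omega)]
        omega
      · apply Fin.ext
        simp only
        rw [H2K.i0_ix n _ (by omega)]
        omega
    · rw [dif_neg h1, if_neg h1]
      by_cases h2 : c.1.val < 1 ∧ c.2.val = 2 * n - 1 + c.1.val
      · rw [if_pos h2, if_pos h2, map_one]
      · rw [if_neg h2, if_neg h2]
        by_cases h3 : c.2.val < 1 ∧ c.1.val = 2 * n - 1 + c.2.val
        · rw [if_pos h3, if_pos h3, map_neg, map_one]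
        · rw [if_neg h3, if_neg h3, map_zero]
  have hD : eval v (H2K.DD n (2 * n - 1) 1) = v (H2K.jj n 1 (Sum.inl (0, 0))) := by
    rw [H2K.i3a_DD, Matrix.det_fin_one]
    rfl
  have hT : eval (fun t => v (H2K.jj n 1 (Sum.inr t))) (Matrix.det (Matrix.of fun p q : Fin (kk n) =>
      (X (p, q) : MvPolynomial (Fin (kk n) × Fin (kk n)) ℂ))) =
      (Matrix.of fun p q => v (wi n p, wi n q)).det := by
    rw [RingHom.map_det]
    congr 1
    ext p q
    simp only [RingHom.mapMatrix_apply, Matrix.map_apply, Matrix.of_apply, eval_X]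
    rfl
  rw [map_mul, c_detT n v hskew, H2K.p2_factor n 1 (by omega) v hskew hzero, hD, map_mul, hT,
    H2K.i3a_bind, hP, eval_X]
  ring

theorem c_inv (a : Fin (kk n) → ℂ) (v : Fin (2 * n) × Fin (2 * n) → ℂ) :
    eval ((TU (uM n a)).mulVec v) (detT LL (eP n) * hPf n) = eval v (detT LL (eP n) * hPf n) := by
  rw [map_mul, map_mul]
  congr 1
  · rw [a3_detT, a3_detT]
    congr 2
    funext t
    rw [H2K.i0_TUv]
    simp only [eP]
    have h1 : ∀ A j, uM n a A (wi n j) = dl A (wi n j) := by
      intro A j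
      unfold uM
      rw [if_neg (wi_ne n j)]
    simp only [h1, dl]
    rw [Finset.sum_eq_single (wi n t.1.1), Finset.sum_eq_single (wi n t.1.2)]
    · simp
    · intro b _ hb
      simp [hb]
    · simp
    · intro b _ hb
      simp [hb]
    · simp
  · rw [H2K.i0_TUv, H2K.p1_equivariant, uM_det, one_mul]

theorem c_push_single (a : Fin (kk n) → ℂ) (c : ℂ) (P Q : Fin (2 * n)) :
    push (uM n a) (c • Pi.single (P, Q) (1 : ℂ)) = fun d => c * (uM n a d.1 P * uM n a d.2 Q) := by
  rw [H2K.i1_smul, H2K.i1_single]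
  rfl

/-- `push u` does not change arrays supported on the middle indices -/
theorem c_push_mid (a : Fin (kk n) → ℂ) (ξ : Fin (2 * n) × Fin (2 * n) → ℂ)
    (h : ∀ p q, ξ (p, q) ≠ 0 → p ≠ ix n 0 ∧ q ≠ ix n 0) : push (uM n a) ξ = ξ := by
  funext c
  unfold push
  have h1 : ∀ p q, uM n a c.1 p * ξ (p, q) * uM n a c.2 q = dl c.1 p * ξ (p, q) * dl c.2 q := by
    intro p q
    by_cases h0 : ξ (p, q) = 0
    · rw [h0]
      ring
    · obtain ⟨hp, hq⟩ := h p q h0
      unfold uM
      rw [if_neg hp, if_neg hq]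
  simp only [h1, dl]
  rw [Finset.sum_eq_single c.1, Finset.sum_eq_single c.2]
  · simp
  · intro q _ hq
    simp [Ne.symm hq]
  · simp
  · intro p _ hp
    simp [Ne.symm hp]
  · simp

/-- the pivot block is positive definite -/
theorem c_pos (β : Matrix (Fin (2 * n) × Fin (2 * n)) (Fin (2 * n) × Fin (2 * n)) ℂ)
    (hβ : β.IsHermitian) (hskew : ∀ p q c, β (p, q) c = -β (q, p) c)
    (hW : ∀ ω : Fin (2 * n) × Fin (2 * n) → ℂ, (∀ p q, ω (p, q) = -ω (q, p)) →
      (∀ p q, q.val = 2 * n - 1 → ω (p, q) = 0) → ω ≠ 0 → 0 < (qf β ω).re) :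
    (β.submatrix (eP n) (eP n)).PosDef := by
  have hn : 0 < n := Nat.pos_of_ne_zero (NeZero.ne n)
  rw [Matrix.posDef_iff_dotProduct_mulVec]
  refine ⟨hβ.submatrix _, ?_⟩
  intro x hx
  rw [H2K.i2_sub]
  set ξ := H2K.i2_xi (eP n) x with hξ
  set ω : Fin (2 * n) × Fin (2 * n) → ℂ := fun c => (ξ c - ξ (c.2, c.1)) / 2 with hω
  have e1 : qf β ξ = qf β ω := H2K.i0_skew β hβ hskew ξ ω (fun p q => by
    simp only [hω]
    ring)
  have h0 : ∀ P Q : Fin (2 * n), (∀ y, (P, Q) ≠ eP n y) → ξ (P, Q) = 0 := fun P Q h =>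
    H2K.i2_xi_zero (eP n) x (P, Q) h
  have hpos : 0 < (qf β ω).re := by
    refine hW ω ?_ ?_ ?_
    · intro p q
      simp only [hω]
      ring
    · intro p q hq
      simp only [hω]
      rw [h0 p q, h0 q p]
      · ring
      · intro y hy
        have h1 := congrArg (fun c : Fin (2 * n) × Fin (2 * n) => c.1.val) hy
        have h2 := eP_lt n y
        simp only at h1
        omega
      · intro y hy
        have h1 := congrArg (fun c : Fin (2 * n) × Fin (2 * n) => c.2.val) hy
        have h2 := eP_lt n y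
        simp only at h1
        omega
    · intro hz
      obtain ⟨y, hy⟩ := Function.ne_iff.mp hx
      apply hy
      have h1 := congrFun hz (eP n y)
      simp only [hω] at h1
      have h2 : ξ ((eP n y).2, (eP n y).1) = 0 := by
        apply h0
        intro y' hy'
        have h3 := congrArg (fun c : Fin (2 * n) × Fin (2 * n) => c.1.val) hy'
        have h4 := congrArg (fun c : Fin (2 * n) × Fin (2 * n) => c.2.val) hy'
        have h5 := eP_lt n y'
        have h6 := eP_lt n y
        simp only at h3 h4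
        omega
      have h3 : ξ (eP n y) = star (x y) := H2K.i2_xi_apply (eP n) (eP_inj n) x y
      rw [h2, h3, sub_zero, Pi.zero_apply] at h1
      have h4 : star (x y) = 0 := by
        have := div_eq_zero_iff.1 h1
        rcases this with h | h
        · exact h
        · norm_num at h
      rw [star_eq_zero] at h4
      rw [h4]
      rfl
  rw [Complex.lt_def]
  refine ⟨by rw [e1]; exact hpos, ?_⟩
  rw [H2K.i0_herm β hβ]
  rfl

omit [NeZero n] in
/-- on `Λ²(W)` -/
theorem c_weak (β : Matrix (Fin (2 * n) × Fin (2 * n)) (Fin (2 * n) × Fin (2 * n)) ℂ)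
    (hβ : β.IsHermitian) (hskew : ∀ p q c, β (p, q) c = -β (q, p) c)
    (hW : ∀ ω : Fin (2 * n) × Fin (2 * n) → ℂ, (∀ p q, ω (p, q) = -ω (q, p)) →
      (∀ p q, q.val = 2 * n - 1 → ω (p, q) = 0) → ω ≠ 0 → 0 < (qf β ω).re)
    (ξ : Fin (2 * n) × Fin (2 * n) → ℂ) (h : ∀ p q, q.val = 2 * n - 1 → ξ (p, q) - ξ (q, p) = 0) :
    0 ≤ (qf β ξ).re := by
  set ω : Fin (2 * n) × Fin (2 * n) → ℂ := fun c => (ξ c - ξ (c.2, c.1)) / 2 with hω
  have e1 : qf β ξ = qf β ω := H2K.i0_skew β hβ hskew ξ ω (fun p q => by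
    simp only [hω]
    ring)
  rw [e1]
  by_cases hz : ω = 0
  · rw [hz]
    simp [qf]
  · refine (hW ω ?_ ?_ hz).le
    · intro p q
      simp only [hω]
      ring
    · intro p q hq
      simp only [hω]
      rw [h p q hq, zero_div]

/-- THE CORE -/
theorem hp_core (β : Matrix (Fin (2 * n) × Fin (2 * n)) (Fin (2 * n) × Fin (2 * n)) ℂ)
    (hβ : β.IsHermitian) (hskew : ∀ p q c, β (p, q) c = -β (q, p) c)
    (hW : ∀ ω : Fin (2 * n) × Fin (2 * n) → ℂ, (∀ p q, ω (p, q) = -ω (q, p)) →
      (∀ p q, q.val = 2 * n - 1 → ω (p, q) = 0) → ω ≠ 0 → 0 < (qf β ω).re)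
    (hK : ∀ z w : Fin (2 * n) → ℂ, 0 ≤ (qf β (fun c => z c.1 * w c.2)).re) :
    0 ≤ (W β (hPf n) (hPf n)).re := by
  have hn : 0 < n := Nat.pos_of_ne_zero (NeZero.ne n)
  have hL : ∃ x : PP (kk n) → ℂ, (TT LL x).det ≠ 0 := by
    have h := TT_det (n - 1)
    have e : 2 * (n - 1) = kk n := by unfold kk; omega
    rw [e] at h
    exact h
  refine a4_step LL hL (eP n) (eP_inj n) β hβ (c_pos n β hβ hskew hW) (hPf n) ?_
  intro a β' hh hform hb hrel
  set F := detT LL (eP n) * hPf n with hF
  set u := uM n a with hu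
  set Y := β' * (TU u).conjTranspose with hY
  set β'' := TU u * β' * (TU u).conjTranspose with hβ''
  have hform' : ∀ ξ : Fin (2 * n) × Fin (2 * n) → ℂ, ∃ s : Fin (kk n) → ℂ,
      qf β' ξ = qf β (ξ + Dv n a s) := hform
  have hβ'skew : ∀ p q c, β' (p, q) c = -β' (q, p) c := by
    intro p q c
    have h1 := hrel (Pi.single (p, q) 1 + Pi.single (q, p) 1) (by
      intro d
      simp only [Pi.add_apply, add_mul, Finset.sum_add_distrib]
      simp only [Pi.single_apply, ite_mul, one_mul, zero_mul, Finset.sum_ite_eq',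
        Finset.mem_univ, if_true]
      rw [hskew p q d]
      ring) c
    simp only [Pi.add_apply, add_mul, Finset.sum_add_distrib] at h1
    simp only [Pi.single_apply, ite_mul, one_mul, zero_mul, Finset.sum_ite_eq',
      Finset.mem_univ, if_true] at h1
    linear_combination h1
  have hYskew : ∀ p q c, Y (p, q) c = -Y (q, p) c := by
    intro p q c
    simp only [hY, Matrix.mul_apply]
    rw [← Finset.sum_neg_distrib]
    apply Finset.sum_congr rfl
    intro d _
    rw [hβ'skew p q d]
    ring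
  have hent : ∀ p q c, β'' (p, q) c = ∑ a', ∑ b', u a' p * u b' q * Y (a', b') c := by
    intro p q c
    rw [hβ'', Matrix.mul_assoc, ← hY, Matrix.mul_apply, Fintype.sum_prod_type]
    rfl
  have hherm : β''.IsHermitian := Matrix.isHermitian_mul_mul_conjTranspose (TU u) hh
  have hsk : ∀ p q c, β'' (p, q) c = -β'' (q, p) c := by
    intro p q c
    rw [hent, hent, Finset.sum_comm, ← Finset.sum_neg_distrib]
    apply Finset.sum_congr rfl
    intro b' _
    rw [← Finset.sum_neg_distrib]
    apply Finset.sum_congr rfl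
    intro a' _
    rw [hYskew a' b' c]
    ring
  -- the relations after the step
  have hb' : ∀ p c, Y (ix n 0, wi n p) c = ∑ j, a j * Y (wi n p, wi n j) c := by
    intro p c
    have h3 := fun d => hb p d
    simp only [eP] at h3
    have h4 : ∀ d, β' (ix n 0, wi n p) d = ∑ j, a j * β' (wi n p, wi n j) d := by
      intro d
      rw [h3 d]
      exact sumL (fun i j => β' (wi n i, wi n j) d) (fun i j => hβ'skew _ _ d) a p
    simp only [hY, Matrix.mul_apply, h4, Finset.sum_mul, Finset.mul_sum]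
    rw [Finset.sum_comm]
    apply Finset.sum_congr rfl
    intro r _
    apply Finset.sum_congr rfl
    intro d _
    ring
  have hzero : ∀ p q : Fin (2 * n), p.val < 1 → q.val < 2 * n - 1 → ∀ c, β'' (p, q) c = 0 := by
    intro p q hp hq c
    have hp' : p = ix n 0 := Fin.ext (by rw [z_val]; omega)
    subst hp'
    rcases Nat.eq_zero_or_pos q.val with hq0 | hq0
    · have hq' : q = ix n 0 := Fin.ext (by rw [z_val]; omega)
      rw [hq']
      have h1 := hsk (ix n 0) (ix n 0) c
      have h2 : (2 : ℂ) * β'' (ix n 0, ix n 0) c = 0 := by linear_combination h1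
      exact (mul_eq_zero.1 h2).resolve_left two_ne_zero
    · obtain ⟨j, hj⟩ : ∃ j : Fin (kk n), q = wi n j := by
        refine ⟨⟨q.val - 1, by unfold kk; omega⟩, Fin.ext ?_⟩
        rw [wi_val]
        simp only
        omega
      rw [hj, hent]
      have h1 : ∀ A, uM n a A (wi n j) = dl A (wi n j) := by
        intro A
        unfold uM
        rw [if_neg (wi_ne n j)]
      have h2 : ∀ A, uM n a A (ix n 0) = wv n a A := by
        intro A
        unfold uM
        rw [if_pos rfl]
      have h3 : ∀ a', ∑ b', u a' (ix n 0) * u b' (wi n j) * Y (a', b') c =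
          wv n a a' * Y (a', wi n j) c := by
        intro a'
        rw [Finset.sum_eq_single (wi n j)]
        · rw [hu, h1, h2]
          unfold dl
          rw [if_pos rfl, mul_one]
        · intro b' _ hb'
          rw [hu, h1]
          unfold dl
          rw [if_neg hb']
          ring
        · intro hh
          exact absurd (Finset.mem_univ _) hh
      simp only [h3]
      unfold wv dl
      simp only [add_mul, Finset.sum_add_distrib, ite_mul, one_mul, zero_mul, Finset.sum_ite_eq',
        Finset.mem_univ, if_true, Finset.sum_mul]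
      rw [Finset.sum_comm, hb' j c]
      have h4 : ∑ y : Fin (kk n), ∑ x : Fin (2 * n), a y * (if x = wi n y then (1 : ℂ) else 0) *
          Y (x, wi n j) c = ∑ y, a y * Y (wi n y, wi n j) c := by
        apply Finset.sum_congr rfl
        intro y _
        rw [Finset.sum_eq_single (wi n y)]
        · rw [if_pos rfl, mul_one]
        · intro b' _ hb'
          rw [if_neg hb']
          ring
        · intro hh
          exact absurd (Finset.mem_univ _) hh
      rw [h4, ← Finset.sum_add_distrib]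
      apply Finset.sum_eq_zero
      intro y _
      rw [hYskew (wi n j) (wi n y) c]
      ring
  -- reduction to the coordinates
  have hz : ∀ p q : Fin (2 * n), p.val < 1 → q.val < 2 * n - 1 → ∀ d, β'' (p, q) d = 0 := hzero
  have hPb : H2K.i3c_PE n 1 * β'' = β'' := by
    ext c d
    rw [Matrix.mul_apply, H2K.i3c_sum n 1 c (fun e => β'' e d)]
    by_cases hc : H2K.i3c_Z n 1 c
    · rw [if_pos hc]
      rcases hc with hc | hc
      · exact (hz c.1 c.2 hc.1 hc.2 d).symm
      · have h1 := hsk c.1 c.2 d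
        rw [hz c.2 c.1 hc.1 hc.2 d, neg_zero] at h1
        exact h1.symm
    · rw [if_neg hc]
      have h1 := hsk c.1 c.2 d
      have h2 : β'' c d = β'' (c.1, c.2) d := rfl
      rw [h2, h1]
      ring
  have hPbP : H2K.i3c_PE n 1 * β'' * (H2K.i3c_PE n 1).conjTranspose = β'' := by
    rw [hPb]
    have h1 := congrArg Matrix.conjTranspose hPb
    rw [Matrix.conjTranspose_mul, hherm.eq] at h1
    exact h1
  obtain ⟨f, g, hfg⟩ := c_poly n
  have hR := H2K.r1_restrict β'' (H2K.i3c_PE n 1) (H2K.jj n 1) hPbP F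
    (rename Sum.inl f * rename Sum.inr g) (by
      intro v
      have hv : ∀ c, (H2K.i3c_PE n 1).mulVec v c =
          if H2K.i3c_Z n 1 c then 0 else (v c - v (c.2, c.1)) / 2 :=
        fun c => H2K.i3c_sum n 1 c v
      rw [hfg ((H2K.i3c_PE n 1).mulVec v)]
      · rw [map_mul, eval_rename, eval_rename]
        rfl
      · intro p q
        rw [hv, hv]
        by_cases hc : H2K.i3c_Z n 1 (p, q)
        · have hc' : H2K.i3c_Z n 1 (q, p) := by
            unfold H2K.i3c_Z at hc ⊢
            exact hc.symm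
          rw [if_pos hc, if_pos hc', neg_zero]
        · have hc' : ¬ H2K.i3c_Z n 1 (q, p) := by
            intro h1
            apply hc
            unfold H2K.i3c_Z at h1 ⊢
            exact h1.symm
          rw [if_neg hc, if_neg hc']
          ring
      · intro p q hp hq
        have hc : H2K.i3c_Z n 1 (p, q) := Or.inl ⟨hp, hq⟩
        rw [hv, if_pos hc])
  rw [← H2K.r1_push β' (TU u) F (c_inv n a), ← hβ'', hR]
  apply H2K.x2_lemmaX
  · exact hherm.submatrix _
  · -- the variance of `κ(x, w)`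
    rw [Matrix.posSemidef_iff_dotProduct_mulVec]
    refine ⟨hherm.submatrix _, ?_⟩
    intro x
    have e0 : star x ⬝ᵥ (Matrix.toBlocks₁₁ (β''.submatrix (H2K.jj n 1) (H2K.jj n 1))).mulVec x =
        qf β'' (H2K.i2_xi (fun t => H2K.jj n 1 (Sum.inl t)) x) :=
      H2K.i2_sub β'' (fun t => H2K.jj n 1 (Sum.inl t)) x
    rw [e0, Complex.le_def]
    refine ⟨?_, (H2K.i0_herm β'' hherm _).symm⟩
    have e1 : H2K.i2_xi (fun t => H2K.jj n 1 (Sum.inl t)) x =
        star (x (0, 0)) • Pi.single (ix n 0, ix n (2 * n - 1)) (1 : ℂ) := by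
      funext c
      unfold H2K.i2_xi
      rw [Fintype.sum_prod_type]
      simp only [Fin.sum_univ_one, Fin.isValue, Pi.smul_apply, Pi.single_apply, smul_eq_mul,
        mul_ite, mul_one, mul_zero]
      rfl
    rw [e1, hβ'', H2K.i0_TU, hu, c_push_single]
    obtain ⟨s, hs⟩ := hform' (fun d => star (x (0, 0)) * (uM n a d.1 (ix n 0) * uM n a d.2 (ix n (2 * n - 1))))
    rw [hs]
    have hlast : (ix n (2 * n - 1)).val = 2 * n - 1 := H2K.i0_ix n _ (by omega)
    have hne : ix n (2 * n - 1) ≠ ix n 0 := by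
      intro h
      have h1 := congrArg Fin.val h
      rw [hlast, z_val] at h1
      omega
    have h2 : ∀ A, uM n a A (ix n 0) = wv n a A := by
      intro A
      unfold uM
      rw [if_pos rfl]
    have h3 : ∀ A, uM n a A (ix n (2 * n - 1)) = dl A (ix n (2 * n - 1)) := by
      intro A
      unfold uM
      rw [if_neg hne]
    have e2 : qf β ((fun d => star (x (0, 0)) * (uM n a d.1 (ix n 0) * uM n a d.2 (ix n (2 * n - 1)))) +
        Dv n a s) = qf β (fun c => wv n a c.1 *
          (star (x (0, 0)) * dl c.2 (ix n (2 * n - 1)) + yv n s c.2)) := by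
      apply H2K.i0_skew β hβ hskew
      intro p q
      have h5 := Dv_skew n a s p q
      simp only [Pi.add_apply, h2, h3]
      linear_combination h5
    rw [e2]
    exact hK (wv n a) (fun A => star (x (0, 0)) * dl A (ix n (2 * n - 1)) + yv n s A)
  · -- the covariance of `K`
    rw [Matrix.posSemidef_iff_dotProduct_mulVec]
    refine ⟨hherm.submatrix _, ?_⟩
    intro x
    have e0 : star x ⬝ᵥ (Matrix.toBlocks₂₂ (β''.submatrix (H2K.jj n 1) (H2K.jj n 1))).mulVec x =
        qf β'' (H2K.i2_xi (fun t => H2K.jj n 1 (Sum.inr t)) x) :=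
      H2K.i2_sub β'' (fun t => H2K.jj n 1 (Sum.inr t)) x
    rw [e0, Complex.le_def]
    refine ⟨?_, (H2K.i0_herm β'' hherm _).symm⟩
    set ξ := H2K.i2_xi (fun t => H2K.jj n 1 (Sum.inr t)) x with hξ
    have hmid : ∀ t : Fin (2 * n - 2 * 1), (ix n (1 + t)).val = 1 + t.val := by
      intro t
      have := t.2
      exact H2K.i0_ix n _ (by omega)
    have hsup : ∀ p q, ξ (p, q) ≠ 0 → (p ≠ ix n 0 ∧ q ≠ ix n 0) ∧ p.val < 2 * n - 1 ∧ q.val < 2 * n - 1 := by
      intro p q hpq
      by_contra hc
      apply hpq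
      apply H2K.i2_xi_zero
      intro t ht
      apply hc
      simp only [H2K.jj, Prod.mk.injEq] at ht
      have h1 := congrArg Fin.val ht.1
      have h2 := congrArg Fin.val ht.2
      rw [hmid] at h1 h2
      have h3 := t.1.2
      have h4 := t.2.2
      refine ⟨⟨?_, ?_⟩, by omega, by omega⟩
      · intro h
        rw [h, z_val] at h1
        omega
      · intro h
        rw [h, z_val] at h2
        omega
    rw [hβ'', H2K.i0_TU, hu, c_push_mid n a ξ (fun p q h => (hsup p q h).1)]
    obtain ⟨s, hs⟩ := hform' ξ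
    rw [hs]
    apply c_weak n β hβ hskew hW
    intro p q hq
    have h1 : ξ (p, q) = 0 := by
      by_contra h
      have := (hsup p q h).2.2
      omega
    have h2 : ξ (q, p) = 0 := by
      by_contra h
      have := (hsup q p h).2.1
      omega
    have h3 := Dv_skew n a s p q
    rw [wv_last n a q hq, yv_last n s q hq] at h3
    simp only [Pi.add_apply]
    rw [h1, h2]
    linear_combination h3

end H87HP
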