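import Pool.Agent.Lib.H2K.S2

/-!
# H87 HopfHP A1: change of variables `(x, b) = (x, T_x a)` for a linear family `T_x` of matrices
-/

open MeasureTheory MvPolynomial
open scoped ComplexOrder

namespace H87HP

variable {q r : Type} [Fintype q] [DecidableEq q] [Fintype r] [DecidableEq r]

/-- the linear family `x ↦ ∑ x_u L_u` -/
noncomputable def TT (L : q → Matrix r r ℂ) (x : q → ℂ) : Matrix r r ℂ := ∑ u, x u • L u

/-- the linear map `x ↦ (x, T_x a)` as a matrix -/
noncomputable def Ja (L : q → Matrix r r ℂ) (a : r → ℂ) : Matrix (q ⊕ r) q ℂ :=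
  fun h t => match h with
    | Sum.inl u => if u = t then 1 else 0
    | Sum.inr p => (L t).mulVec a p

/-- the determinant of the family as a polynomial -/
noncomputable def detT {ι : Type} (L : q → Matrix r r ℂ) (e : q ⊕ r → ι) : MvPolynomial ι ℂ :=
  Matrix.det (Matrix.of fun p s : r => ∑ u, C (L u p s) * (X (e (Sum.inl u)) : MvPolynomial ι ℂ))

omit [DecidableEq q] [Fintype r] [DecidableEq r] in
theorem TT_apply (L : q → Matrix r r ℂ) (x : q → ℂ) (p s : r) :
    TT L x p s = ∑ u, x u * L u p s := by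
  unfold TT
  rw [Matrix.sum_apply]
  rfl

omit [DecidableEq q] [Fintype r] [DecidableEq r] in
theorem TT_add (L : q → Matrix r r ℂ) (x y : q → ℂ) : TT L (x + y) = TT L x + TT L y := by
  unfold TT
  rw [← Finset.sum_add_distrib]
  exact Finset.sum_congr rfl fun u _ => by rw [Pi.add_apply, add_smul]

omit [DecidableEq q] [Fintype r] [DecidableEq r] in
theorem TT_smul (L : q → Matrix r r ℂ) (l : ℂ) (y : q → ℂ) : TT L (l • y) = l • TT L y := by
  unfold TT
  rw [Finset.smul_sum]
  exact Finset.sum_congr rfl fun u _ => by rw [Pi.smul_apply, smul_eq_mul, mul_smul]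

omit [DecidableEq q] [DecidableEq r] in
theorem TT_mulVec (L : q → Matrix r r ℂ) (x : q → ℂ) (a : r → ℂ) (p : r) :
    (TT L x).mulVec a p = ∑ u, x u * (L u).mulVec a p := by
  unfold TT
  rw [Matrix.sum_mulVec, Finset.sum_apply]
  exact Finset.sum_congr rfl fun u _ => by rw [Matrix.smul_mulVec, Pi.smul_apply, smul_eq_mul]

omit [DecidableEq q] [Fintype r] [DecidableEq r] in
theorem TT_cont (L : q → Matrix r r ℂ) : Continuous (TT L) := by
  unfold TT
  exact continuous_finsetSum _ fun u _ => (continuous_apply u).smul continuous_const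

omit [DecidableEq q] in
/-- the members of determinant zero are a null set -/
theorem a1_null (L : q → Matrix r r ℂ) (hL : ∃ x, (TT L x).det ≠ 0) :
    ∀ᵐ x : q → ℂ, (TT L x).det ≠ 0 := by
  obtain ⟨x0, hx0⟩ := hL
  have hcont : Continuous fun x : ℂ × (q → ℂ) => (TT L (x.2 + x.1 • x0)).det := by
    refine Continuous.matrix_det ((TT_cont L).comp ?_)
    fun_prop
  set S : Set (ℂ × (q → ℂ)) := {x | (TT L (x.2 + x.1 • x0)).det = 0} with hS
  have hSm : MeasurableSet S := (isClosed_eq hcont continuous_const).measurableSet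
  have hu : IsUnit (TT L x0).det := isUnit_iff_ne_zero.2 hx0
  have h1 : ∀ x : q → ℂ, volume {l : ℂ | (l, x) ∈ S} = 0 := by
    intro x
    have hfin : {l : ℂ | (l, x) ∈ S}.Finite := by
      have h2 : {l : ℂ | (l, x) ∈ S} ⊆ {l : ℂ | (-((TT L x0)⁻¹ * TT L x)).charpoly.IsRoot l} := by
        intro l hl
        have h3 : (TT L (x + l • x0)).det = 0 := hl
        show (-((TT L x0)⁻¹ * TT L x)).charpoly.eval l = 0
        rw [Matrix.eval_charpoly]
        have h4 : TT L (x + l • x0) = TT L x0 * (Matrix.scalar r l - -((TT L x0)⁻¹ * TT L x)) := by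
          rw [TT_add, TT_smul, sub_neg_eq_add, Matrix.mul_add, ← Matrix.mul_assoc,
            Matrix.mul_nonsing_inv _ hu, Matrix.one_mul, add_comm]
          congr 1
          ext p s
          rw [Matrix.smul_apply, Matrix.scalar_apply, Matrix.mul_diagonal, smul_eq_mul, mul_comm]
        rw [h4, Matrix.det_mul] at h3
        exact (mul_eq_zero.1 h3).resolve_left hx0
      exact (Polynomial.finite_setOfPred_isRoot (Matrix.charpoly_monic _).ne_zero).subset h2
    exact hfin.measure_zero _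
  have h2 : (volume : Measure (ℂ × (q → ℂ))) S = 0 := by
    rw [Measure.volume_eq_prod, ← Measure.prod_swap, Measure.map_apply measurable_swap hSm,
      Measure.measure_prod_null (measurable_swap hSm)]
    filter_upwards with x
    exact h1 x
  rw [Measure.volume_eq_prod, Measure.measure_prod_null hSm] at h2
  obtain ⟨l, hl⟩ := h2.exists
  have h3 : volume {x : q → ℂ | (TT L (x + l • x0)).det = 0} = 0 := hl
  have h4 : {x : q → ℂ | (TT L (x + l • x0)).det = 0} =
      (fun x => x + l • x0) ⁻¹' {x | (TT L x).det = 0} := rfl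
  rw [h4, measure_preimage_add_right] at h3
  rw [ae_iff]
  simpa using h3

theorem a1_change (L : q → Matrix r r ℂ) (hL : ∃ x, (TT L x).det ≠ 0)
    (ψ : (q → ℂ) × (r → ℂ) → ℂ) (hc : Continuous ψ) (hψ : Integrable ψ)
    (h : ∀ a : r → ℂ, 0 ≤ (∫ x : q → ℂ,
      ψ (x, (TT L x).mulVec a) * ((‖(TT L x).det‖ ^ 2 : ℝ) : ℂ)).re) :
    0 ≤ (∫ p, ψ p).re := by
  set G : (q → ℂ) × (r → ℂ) → ℂ := fun x =>
    ψ (x.1, (TT L x.1).mulVec x.2) * ((‖(TT L x.1).det‖ ^ 2 : ℝ) : ℂ) with hG
  have hTc : Continuous fun x : (q → ℂ) × (r → ℂ) => TT L x.1 := (TT_cont L).comp continuous_fst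
  have hGc : Continuous G := by
    refine (hc.comp ?_).mul ?_
    · exact Continuous.prodMk continuous_fst (Continuous.matrix_mulVec hTc continuous_snd)
    · exact Complex.continuous_ofReal.comp ((Continuous.norm (Continuous.matrix_det hTc)).pow 2)
  rw [Measure.volume_eq_prod] at hψ
  have hψ1 := (integrable_prod_iff hψ.aestronglyMeasurable).1 hψ
  -- the inner integrals
  have hin : ∀ᵐ x : q → ℂ, (∫ a, G (x, a)) = ∫ b, ψ (x, b) := by
    filter_upwards [a1_null L hL] with x hT
    have h1 := H2K.k1_integral (TT L x) hT (fun b => ψ (x, b))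
    have h2 : ‖(TT L x).det‖ ^ 2 ≠ 0 := pow_ne_zero 2 (norm_ne_zero_iff.2 hT)
    simp only [hG]
    rw [integral_mul_const, h1, Complex.real_smul, mul_comm, ← mul_assoc, ← Complex.ofReal_mul, mul_inv_cancel₀ h2,
      Complex.ofReal_one, one_mul]
  have hinn : ∀ᵐ x : q → ℂ, (∫ a, ‖G (x, a)‖) = ∫ b, ‖ψ (x, b)‖ := by
    filter_upwards [a1_null L hL] with x hT
    have h1 := H2K.k1_integral (TT L x) hT (fun b => ‖ψ (x, b)‖)
    have h2 : ‖(TT L x).det‖ ^ 2 ≠ 0 := pow_ne_zero 2 (norm_ne_zero_iff.2 hT)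
    have h3 : ∀ a, ‖G (x, a)‖ = ‖ψ (x, (TT L x).mulVec a)‖ * ‖(TT L x).det‖ ^ 2 := by
      intro a
      simp only [hG]
      rw [norm_mul, Complex.norm_real, Real.norm_of_nonneg (by positivity)]
    simp only [h3]
    rw [integral_mul_const, h1, smul_eq_mul, mul_comm, ← mul_assoc, mul_inv_cancel₀ h2, one_mul]
  have hGint : Integrable G (volume.prod volume) := by
    rw [integrable_prod_iff hGc.aestronglyMeasurable]
    constructor
    · filter_upwards [a1_null L hL, hψ1.1] with x hT hT2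
      show Integrable (fun a => ψ (x, (TT L x).mulVec a) * ((‖(TT L x).det‖ ^ 2 : ℝ) : ℂ))
      exact (H2K.k1_integrable (TT L x) hT (fun b => ψ (x, b)) hT2).mul_const _
    · refine hψ1.2.congr ?_
      filter_upwards [hinn] with x hT
      exact hT.symm
  have e1 : ∫ p, ψ p = ∫ p, G p ∂(volume.prod volume) := by
    rw [Measure.volume_eq_prod, integral_prod _ hψ, integral_prod _ hGint]
    refine integral_congr_ae ?_
    filter_upwards [hin] with x hT
    exact hT.symm
  have e2 : ∫ p, G p ∂(volume.prod volume) = ∫ a, ∫ x, G (x, a) := by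
    rw [integral_prod_symm _ hGint]
  rw [e1, e2]
  have h5 : Integrable (fun a : r → ℂ => ∫ x, G (x, a)) := hGint.integral_prod_right
  have h6 : (∫ a : r → ℂ, ∫ x, G (x, a)).re = ∫ a : r → ℂ, (∫ x, G (x, a)).re := by
    have := integral_re h5
    exact this.symm
  rw [h6]
  exact integral_nonneg fun a => h a

theorem a2_cond {ι : Type} [Fintype ι] [DecidableEq ι] (L : q → Matrix r r ℂ)
    (e : q ⊕ r → ι) (β : Matrix ι ι ℂ)
    (S : Matrix (q ⊕ r) (q ⊕ r) ℂ) (M : Matrix ι (q ⊕ r) ℂ) (γ : Matrix ι ι ℂ)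
    (hS : IsUnit S.det) (hM : M.submatrix e id = S) (hβ : β = M * M.conjTranspose + γ)
    (hγ : γ.IsHermitian) (hγ0 : ∀ h c, γ (e h) c = 0)
    (hrel : ∀ η : ι → ℂ, (∀ d, ∑ c, η c * β c d = 0) →
        (∀ h, ∑ c, η c * M c h = 0) ∧ (∀ d, ∑ c, η c * γ c d = 0))
    (a : r → ℂ) (U : Matrix (q ⊕ r) q ℂ)
    (K : Matrix q q ℂ) (hK : IsUnit K.det)
    (hU : U.conjTranspose * U = 1) (hB : S⁻¹ * Ja L a = U * K)
    (β' : Matrix ι ι ℂ) (hβ' : β' = (M * U) * (M * U).conjTranspose + γ) :
    β'.IsHermitian ∧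
    (∀ ξ : ι → ℂ, ∃ s : r → ℂ, H2K.qf β' ξ = H2K.qf β (ξ + ∑ p, s p •
      (Pi.single (e (Sum.inr p)) (1 : ℂ) -
        ∑ t, (L t).mulVec a p • Pi.single (e (Sum.inl t)) (1 : ℂ)))) ∧
    (∀ p c, β' (e (Sum.inr p)) c = ∑ t, (L t).mulVec a p * β' (e (Sum.inl t)) c) ∧
    (∀ η : ι → ℂ, (∀ d, ∑ c, η c * β c d = 0) → ∀ d, ∑ c, η c * β' c d = 0) := by
  classical
  have hJ : Ja L a = S * U * K := by
    rw [Matrix.mul_assoc, ← hB, ← Matrix.mul_assoc, Matrix.mul_nonsing_inv _ hS, Matrix.one_mul]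
  have hJK : S * U = Ja L a * K⁻¹ := by
    rw [hJ, Matrix.mul_assoc (S * U), Matrix.mul_nonsing_inv _ hK, Matrix.mul_one]
  have hMU : ∀ h t, (M * U) (e h) t = (Ja L a * K⁻¹) h t := by
    intro h t
    rw [← hJK, ← hM, Matrix.mul_apply, Matrix.mul_apply]
    rfl
  refine ⟨?_, ?_, ?_, ?_⟩
  · rw [hβ']
    exact (Matrix.isHermitian_mul_conjTranspose_self (M * U)).add hγ
  · intro ξ
    set y : q ⊕ r → ℂ := Matrix.vecMul ξ M with hy
    set σH : q ⊕ r → ℂ :=
      Matrix.vecMul y (-((1 - U * U.conjTranspose) * S⁻¹)) with hσH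
    have hσJ : Matrix.vecMul σH (Ja L a) = 0 := by
      rw [hσH, Matrix.vecMul_vecMul, Matrix.neg_mul, Matrix.mul_assoc, hB, Matrix.sub_mul,
        Matrix.one_mul, ← Matrix.mul_assoc, Matrix.mul_assoc U, hU, Matrix.mul_one, sub_self,
        neg_zero, Matrix.vecMul_zero]
    have hσT : ∀ t, σH (Sum.inl t) = -(∑ p, σH (Sum.inr p) * (L t).mulVec a p) := by
      intro t
      have h1 := congrFun hσJ t
      rw [Matrix.vecMul, dotProduct, Fintype.sum_sum_type, Pi.zero_apply] at h1
      simp only [Ja, mul_ite, mul_one, mul_zero, Finset.sum_ite_eq', Finset.mem_univ,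
        if_true] at h1
      linear_combination h1
    refine ⟨fun p => σH (Sum.inr p), ?_⟩
    set σ : ι → ℂ := ∑ p, σH (Sum.inr p) • (Pi.single (e (Sum.inr p)) (1 : ℂ) -
        ∑ t, (L t).mulVec a p • Pi.single (e (Sum.inl t)) (1 : ℂ)) with hσ
    have hσ' : σ = ∑ h, σH h • Pi.single (e h) (1 : ℂ) := by
      rw [hσ, Fintype.sum_sum_type]
      simp_rw [smul_sub, hσT, Finset.sum_sub_distrib, Finset.smul_sum, neg_smul,
        Finset.sum_neg_distrib, smul_smul, Finset.sum_smul]
      rw [Finset.sum_comm]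
      abel
    have hσM : Matrix.vecMul σ M = Matrix.vecMul σH S := by
      rw [hσ', Matrix.sum_vecMul]
      funext h
      rw [Finset.sum_apply, ← hM, Matrix.vecMul, dotProduct]
      refine Finset.sum_congr rfl fun x _ => ?_
      rw [Matrix.smul_vecMul, Pi.smul_apply, Matrix.single_one_vecMul]
      rfl
    have hσsupp : ∀ c, c ∉ Set.range e → σ c = 0 := by
      intro c hc
      rw [hσ', Finset.sum_apply]
      refine Finset.sum_eq_zero fun x _ => ?_
      rw [Pi.smul_apply, Pi.single_eq_of_ne, smul_zero]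
      intro h
      exact hc ⟨x, h.symm⟩
    have hσS : Matrix.vecMul σH S = -y + Matrix.vecMul y (U * U.conjTranspose) := by
      rw [hσH, Matrix.vecMul_vecMul, Matrix.neg_mul, Matrix.mul_assoc,
        Matrix.nonsing_inv_mul _ hS, Matrix.mul_one, neg_sub, Matrix.vecMul_sub, Matrix.vecMul_one]
      abel
    have h1 : Matrix.vecMul (ξ + σ) M = Matrix.vecMul y (U * U.conjTranspose) := by
      rw [Matrix.add_vecMul, hσM, hσS, ← hy]
      abel
    rw [hβ', hβ, H2K.s2_qf_add, H2K.s2_qf_add, H2K.s2_qf_gamma e γ hγ hγ0 ξ σ hσsupp, H2K.s2_qf_sq,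
      H2K.s2_qf_sq, h1, ← Matrix.vecMul_vecMul, ← hy]
    congr 1
    rw [← Matrix.vecMul_vecMul]
    generalize Matrix.vecMul y U = z
    rw [Matrix.star_vecMul U.conjTranspose z, Matrix.conjTranspose_conjTranspose,
      Matrix.dotProduct_mulVec, Matrix.vecMul_vecMul, hU, Matrix.vecMul_one]
  · intro p c
    have h0 : ∀ h, β' (e h) c = ∑ t, (Ja L a * K⁻¹) h t * (M * U).conjTranspose t c := by
      intro h
      have h1 : β' (e h) c = ((M * U) * (M * U).conjTranspose) (e h) c + γ (e h) c := by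
        rw [hβ', Matrix.add_apply]
      rw [h1, hγ0, add_zero, Matrix.mul_apply]
      exact Finset.sum_congr rfl fun t _ => by rw [hMU]
    have h2 : ∀ u t, (Ja L a * K⁻¹) (Sum.inl u) t = K⁻¹ u t := by
      intro u t
      rw [Matrix.mul_apply]
      simp [Ja]
    have h3 : ∀ t, (Ja L a * K⁻¹) (Sum.inr p) t = ∑ u, (L u).mulVec a p * K⁻¹ u t := by
      intro t
      rw [Matrix.mul_apply]
      simp [Ja]
    simp_rw [h0, h2, h3, Finset.mul_sum, Finset.sum_mul]
    rw [Finset.sum_comm]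
    refine Finset.sum_congr rfl fun q _ => Finset.sum_congr rfl fun t _ => ?_
    ring
  · intro η hη d
    obtain ⟨h1, h2⟩ := hrel η hη
    have h3 : Matrix.vecMul η M = 0 := by
      funext h
      exact h1 h
    have h4 : Matrix.vecMul η γ = 0 := by
      funext h
      exact h2 h
    have h5 : Matrix.vecMul η β' = 0 := by
      rw [hβ', Matrix.vecMul_add, h4, ← Matrix.vecMul_vecMul, ← Matrix.vecMul_vecMul, h3,
        Matrix.zero_vecMul, Matrix.zero_vecMul, add_zero]
    exact congrFun h5 d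

end H87HP
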