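import Pool.Agent.Lib.H2K.S4
import Pool.Agent.Lib.H87.HopfHP.A1

/-!
# H87 HopfHP A2: the step lemma for a linear family of pivots (generalises `H2K.s4_step`)
-/

open MeasureTheory MvPolynomial
open scoped ComplexOrder

namespace H87HP

variable {q r : Type} [Fintype q] [DecidableEq q] [Fintype r] [DecidableEq r]

omit [DecidableEq r] in
theorem a3_Ja (L : q → Matrix r r ℂ) (a : r → ℂ) (x : q → ℂ) :
    (Sum.elim x ((TT L x).mulVec a) : q ⊕ r → ℂ) = (Ja L a).mulVec x := by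
  funext h
  rcases h with u | p
  · simp only [Sum.elim_inl, Matrix.mulVec, dotProduct, Ja, ite_mul, one_mul, zero_mul,
      Finset.sum_ite_eq, Finset.mem_univ, if_true]
  · rw [Sum.elim_inr, TT_mulVec]
    simp only [Matrix.mulVec, dotProduct, Ja]
    exact Finset.sum_congr rfl fun u _ => mul_comm _ _

omit [DecidableEq q] in
theorem a3_detT {ι : Type} (L : q → Matrix r r ℂ) (e : q ⊕ r → ι) (w : ι → ℂ) :
    eval w (detT L e) = (TT L fun u => w (e (Sum.inl u))).det := by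
  unfold detT
  rw [RingHom.map_det]
  congr 1
  ext p s
  rw [TT_apply]
  simp only [RingHom.mapMatrix_apply, Matrix.map_apply, Matrix.of_apply, map_sum, map_mul, eval_C, eval_X]
  exact Finset.sum_congr rfl fun u _ => mul_comm _ _

theorem a3_phi {ι : Type} [Fintype ι] [DecidableEq ι] (L : q → Matrix r r ℂ)
    (e : q ⊕ r → ι) (γ Q : Matrix ι ι ℂ)
    (hγ0 : ∀ h c, γ (e h) c = 0) (hQ0 : ∀ h c, Q (e h) c = 0) (G : MvPolynomial ι ℂ) (v : ι → ℂ) :
    H2K.phi γ Q (detT L e * G) v =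
      H2K.phi γ Q G v * ((‖(TT L fun u => v (e (Sum.inl u))).det‖ ^ 2 : ℝ) : ℂ) := by
  have hγ : ∀ g' h, (v + γ.mulVec g') (e h) = v (e h) := by
    intro g' h
    simp [Matrix.mulVec, dotProduct, hγ0]
  have hQ : ∀ g' h, (v + Q.mulVec g') (e h) = v (e h) := by
    intro g' h
    simp [Matrix.mulVec, dotProduct, hQ0]
  unfold H2K.phi
  rw [← integral_mul_const]
  refine integral_congr_ae (Filter.Eventually.of_forall fun g' => ?_)
  simp only [map_mul, a3_detT, hγ, hQ]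
  rw [← Complex.normSq_eq_norm_sq, Complex.normSq_eq_conj_mul_self]
  ring

theorem a3_inner {ι : Type} [Fintype ι] [DecidableEq ι] (L : q → Matrix r r ℂ)
    (e : q ⊕ r → ι)
    (S : Matrix (q ⊕ r) (q ⊕ r) ℂ)
    (M : Matrix ι (q ⊕ r) ℂ) (γ Q : Matrix ι ι ℂ)
    (hS : IsUnit S.det) (hM : M.submatrix e id = S)
    (hγ0 : ∀ h c, γ (e h) c = 0) (hQ0 : ∀ h c, Q (e h) c = 0) (hQ : γ * Q.conjTranspose = γ)
    (a : r → ℂ) (U : Matrix (q ⊕ r) q ℂ)
    (K : Matrix q q ℂ) (hK : IsUnit K.det)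
    (hU : U.conjTranspose * U = 1) (hB : S⁻¹ * Ja L a = U * K) (G : MvPolynomial ι ℂ) :
    ∃ c : ℝ, 0 < c ∧
      ∫ x : q → ℂ,
        (H2K.phi γ Q G (M.mulVec (S⁻¹.mulVec (Sum.elim x ((TT L x).mulVec a)))) *
          ((Real.exp (-∑ h, ‖S⁻¹.mulVec (Sum.elim x ((TT L x).mulVec a)) h‖ ^ 2) : ℝ) : ℂ)) *
          ((‖(TT L x).det‖ ^ 2 : ℝ) : ℂ) =
      (c : ℂ) * H2K.W ((M * U) * (M * U).conjTranspose + γ) (detT L e * G) (detT L e * G) := by
  obtain ⟨c2, hc2, h2⟩ := H2K.k2_gauss K hK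
  refine ⟨c2, hc2, ?_⟩
  have hSU : S * U = Ja L a * K⁻¹ := by
    have : S * (S⁻¹ * Ja L a) = S * (U * K) := by rw [hB]
    rw [← Matrix.mul_assoc, Matrix.mul_nonsing_inv _ hS, Matrix.one_mul, ← Matrix.mul_assoc] at this
    rw [this, Matrix.mul_assoc, Matrix.mul_nonsing_inv _ hK, Matrix.mul_one]
  -- the values of the coordinates
  have hv : ∀ (x : q → ℂ) (u : q),
      (M * U).mulVec x (e (Sum.inl u)) = K⁻¹.mulVec x u := by
    intro x u
    have e1 : (M * U).mulVec x (e (Sum.inl u)) = (S * U).mulVec x (Sum.inl u) := by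
      rw [← hM]
      rfl
    rw [e1, hSU, ← Matrix.mulVec_mulVec]
    simp only [Matrix.mulVec, dotProduct, Ja, ite_mul, one_mul, zero_mul,
      Finset.sum_ite_eq, Finset.mem_univ, if_true]
  set F : (q → ℂ) → ℂ := fun x => H2K.phi γ Q (detT L e * G) ((M * U).mulVec x) with hF
  have h3 : ∀ x : q → ℂ,
        (H2K.phi γ Q G (M.mulVec (S⁻¹.mulVec (Sum.elim x ((TT L x).mulVec a)))) *
          ((Real.exp (-∑ h, ‖S⁻¹.mulVec (Sum.elim x ((TT L x).mulVec a)) h‖ ^ 2) : ℝ) : ℂ)) *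
          ((‖(TT L x).det‖ ^ 2 : ℝ) : ℂ) =
        F (K.mulVec x) * ((Real.exp (-∑ s, ‖K.mulVec x s‖ ^ 2) : ℝ) : ℂ) := by
    intro x
    have e1 : S⁻¹.mulVec ((Ja L a).mulVec x) = U.mulVec (K.mulVec x) := by
      rw [Matrix.mulVec_mulVec, hB, ← Matrix.mulVec_mulVec]
    rw [a3_Ja, e1, H2K.s3_norm U hU]
    simp only [hF]
    rw [a3_phi L e γ Q hγ0 hQ0]
    have e2 : (fun u => (M * U).mulVec (K.mulVec x) (e (Sum.inl u))) = x := by
      funext u
      rw [hv, Matrix.mulVec_mulVec, Matrix.nonsing_inv_mul _ hK, Matrix.one_mulVec]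
    rw [e2, Matrix.mulVec_mulVec]
    ring
  refine (integral_congr_ae (Filter.Eventually.of_forall h3)).trans ?_
  rw [h2, (H2K.g5_split (M * U) γ Q hQ (detT L e * G)).2]

/-- the isomorphism `(x, b) ↦ h` -/
noncomputable def a4_L (q r : Type) [Fintype q] [Fintype r] : ((q → ℂ) × (r → ℂ)) ≃L[ℝ] (q ⊕ r → ℂ) :=
  LinearEquiv.toContinuousLinearEquiv (LinearEquiv.sumArrowLequivProdArrow q r ℝ ℂ).symm

omit [DecidableEq q] [DecidableEq r] in
theorem a4_L_apply (p : (q → ℂ) × (r → ℂ)) :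
    a4_L q r p = Sum.elim p.1 p.2 := by
  funext h
  rcases h with u | q <;> rfl

omit [DecidableEq r] in
theorem a4_inj (L : q → Matrix r r ℂ) [DecidableEq r] (S : Matrix (q ⊕ r) (q ⊕ r) ℂ) (hS : IsUnit S.det)
    (a : r → ℂ) : Function.Injective (S⁻¹ * Ja L a).mulVec := by
  intro x y hxy
  have hxy' : (S⁻¹ * Ja L a).mulVec x = (S⁻¹ * Ja L a).mulVec y := hxy
  have h2 := congrArg S.mulVec hxy'
  rw [Matrix.mulVec_mulVec, Matrix.mulVec_mulVec, ← Matrix.mul_assoc, Matrix.mul_nonsing_inv _ hS,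
    Matrix.one_mul] at h2
  funext u
  have h3 := congrFun h2 (Sum.inl u)
  simpa only [Matrix.mulVec, dotProduct, Ja, ite_mul, one_mul, zero_mul,
      Finset.sum_ite_eq, Finset.mem_univ, if_true] using h3

/-- THE STEP: `β` Hermitian, positive definite on the coordinates `x` (`e (inl u)`) and `b` (`e (inr p)`), `T_x = ∑ x_u L_u`
not identically singular.  Then `E |G|²` is an integral over `a` of `E' |det T_x G|²`, where `κ'` is `κ` conditioned on
`b = T_x a`. -/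
theorem a4_step {ι : Type} [Fintype ι] [DecidableEq ι] (L : q → Matrix r r ℂ) (hL : ∃ x, (TT L x).det ≠ 0)
    (e : q ⊕ r → ι) (he : Function.Injective e) (β : Matrix ι ι ℂ)
    (hβ : β.IsHermitian) (hpos : (β.submatrix e e).PosDef) (G : MvPolynomial ι ℂ)
    (h : ∀ (a : r → ℂ) (β' : Matrix ι ι ℂ), β'.IsHermitian →
      (∀ ξ : ι → ℂ, ∃ s : r → ℂ, H2K.qf β' ξ = H2K.qf β (ξ + ∑ p, s p •
        (Pi.single (e (Sum.inr p)) (1 : ℂ) -
          ∑ t, (L t).mulVec a p • Pi.single (e (Sum.inl t)) (1 : ℂ)))) →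
      (∀ p c, β' (e (Sum.inr p)) c = ∑ t, (L t).mulVec a p * β' (e (Sum.inl t)) c) →
      (∀ η : ι → ℂ, (∀ d, ∑ c, η c * β c d = 0) → ∀ d, ∑ c, η c * β' c d = 0) →
      0 ≤ (H2K.W β' (detT L e * G) (detT L e * G)).re) :
    0 ≤ (H2K.W β G G).re := by
  obtain ⟨S, M, γ, Q, hS, hM, hβM, hγ, hγ0, hQ, hQ0, hrel⟩ := H2K.s1_data e he β hβ hpos
  obtain ⟨hint, hW⟩ := H2K.g5_split M γ Q hQ G
  have hS' : IsUnit (S⁻¹).det := by
    rw [Matrix.det_nonsing_inv, Ring.inverse_eq_inv']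
    exact (IsUnit.mk0 _ (inv_ne_zero hS.ne_zero))
  obtain ⟨c, hc, h1⟩ := H2K.k2_gauss S⁻¹ hS'
  have h2 := H2K.k2_gauss' S⁻¹ hS' _ hint
  have h3 := h1 (fun g => H2K.phi γ Q G (M.mulVec g))
  have hP : (volume : Measure ((q → ℂ) × (r → ℂ))).IsAddHaarMeasure := Measure.prod.instIsAddHaarMeasure _ _
  obtain ⟨c', hc', h4⟩ := H2K.s3_haar (volume : Measure ((q → ℂ) × (r → ℂ)))
    (volume : Measure (q ⊕ r → ℂ)) (a4_L q r)
  set Ψ : (q ⊕ r → ℂ) → ℂ := fun x =>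
    H2K.phi γ Q G (M.mulVec (S⁻¹.mulVec x)) * ((Real.exp (-∑ s, ‖S⁻¹.mulVec x s‖ ^ 2) : ℝ) : ℂ) with hΨ
  have h5 := h4 Ψ
  have h6 : Integrable (fun p => Ψ (a4_L q r p)) := H2K.s4_haar _ _ (a4_L q r) Ψ h2
  have hcont : Continuous (fun p => Ψ (a4_L q r p)) := by
    have hΨc : Continuous Ψ := by
      have a1 : Continuous fun x : q ⊕ r → ℂ => S⁻¹.mulVec x :=
        Continuous.matrix_mulVec continuous_const continuous_id
      have a2 : Continuous fun x : q ⊕ r → ℂ => M.mulVec (S⁻¹.mulVec x) :=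
        Continuous.matrix_mulVec continuous_const a1
      refine ((H2K.g5_cont γ Q G).comp a2).mul ?_
      refine Complex.continuous_ofReal.comp (Real.continuous_exp.comp ?_)
      refine Continuous.neg (continuous_finsetSum _ fun s _ => ?_)
      exact ((continuous_apply s).comp a1).norm.pow 2
    exact hΨc.comp (a4_L q r).continuous
  have h7 : 0 ≤ (∫ p : (q → ℂ) × (r → ℂ), Ψ (a4_L q r p)).re := by
    refine a1_change L hL _ hcont h6 fun a => ?_
    obtain ⟨U, K, hK, hU, hB⟩ := H2K.k2_polar (S⁻¹ * Ja L a) (a4_inj L S hS a)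
    obtain ⟨c2, hc2, h8⟩ := a3_inner L e S M γ Q hS hM hγ0 hQ0 hQ a U K hK hU hB G
    obtain ⟨b1, b2, b3, b4⟩ := a2_cond L e β S M γ hS hM hβM hγ hγ0 hrel a U K hK hU hB _ rfl
    have h9 := h a _ b1 b2 b3 b4
    have h10 : (∫ x : q → ℂ, (fun p => Ψ (a4_L q r p)) (x, (TT L x).mulVec a) *
        ((‖(TT L x).det‖ ^ 2 : ℝ) : ℂ)) =
        (c2 : ℂ) * H2K.W ((M * U) * (M * U).conjTranspose + γ) (detT L e * G) (detT L e * G) := by
      rw [← h8]
      refine integral_congr_ae (Filter.Eventually.of_forall fun x => ?_)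
      simp only [hΨ, a4_L_apply]
    rw [h10, Complex.re_ofReal_mul]
    exact mul_nonneg hc2.le h9
  have h11 : (∫ p : (q → ℂ) × (r → ℂ), Ψ (a4_L q r p)) = (c' : ℂ) * ((c : ℂ) * H2K.W β G G) := by
    rw [h5, hβM, hW, ← h3]
  rw [h11, Complex.re_ofReal_mul, Complex.re_ofReal_mul] at h7
  have h12 := (mul_nonneg_iff_of_pos_left hc').1 h7
  exact (mul_nonneg_iff_of_pos_left hc).1 h12

end H87HP
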