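import Pool.Agent.Lib.H87.HopfHP.P4
import Pool.Agent.Lib.H87.HopfHP.A2

/-!
# H87 HopfHP P5: the invariant after the skew step
-/

open MvPolynomial
open scoped ComplexOrder

namespace H87HP

open H2K (qf W hPf ix push TU Inv)

/-- the pivot block is positive definite -/
theorem q5_pos (n k k' : ℕ) [NeZero n] (hk1 : 1 ≤ k) (hk : k ≤ n) (hnk : 2 * n ≤ k + 2 * k' + 1)
    (α β : Matrix (Fin (2 * n) × Fin (2 * n)) (Fin (2 * n) × Fin (2 * n)) ℂ)
    (hα : α.IsHermitian) (hs : ∀ p q c, α (p, q) c = -α (q, p) c) (hW : StrictW n k' α)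
    (g : Matrix (Fin (2 * n)) (Fin (2 * n)) ℂ) (h : Inv n (k - 1) α (2 * n - k) β g) (hg : HypM g) :
    (β.submatrix (eQ n k) (eQ n k)).PosDef := by
  have hn : 0 < n := Nat.pos_of_ne_zero (NeZero.ne n)
  rw [Matrix.posDef_iff_dotProduct_mulVec]
  refine ⟨h.herm.submatrix _, ?_⟩
  intro x hx
  rw [H2K.i2_sub]
  obtain ⟨σ, hσ1, hσ2⟩ := h.form (H2K.i2_xi (eQ n k) x)
  set A := H2K.i2_xi (eQ n k) x + σ with hA
  have hsup : ∀ p q, A (p, q) ≠ 0 → p.val < 2 * n - k ∧ q.val < 2 * n - k := by
    intro p q hpq
    by_contra hc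
    apply hpq
    rw [hA, Pi.add_apply, H2K.i2_xi_zero (eQ n k) x (p, q), zero_add]
    · by_contra h1
      have := hσ1 p q h1
      omega
    · intro y hy
      have h1 := congrArg (fun c : Fin (2 * n) × Fin (2 * n) => c.1.val) hy
      have h2 := congrArg (fun c : Fin (2 * n) × Fin (2 * n) => c.2.val) hy
      have h3 := eQ_lt n k hk1 hk y
      simp only at h1 h2
      omega
  have hns : ∃ a b, A (a, b) ≠ A (b, a) := by
    obtain ⟨y, hy⟩ := Function.ne_iff.mp hx
    have hy' : star (x y) ≠ 0 := by
      rw [star_ne_zero]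
      exact hy
    have h3 := eQ_lt n k hk1 hk y
    refine ⟨(eQ n k y).1, (eQ n k y).2, ?_⟩
    have h1 : A ((eQ n k y).1, (eQ n k y).2) = star (x y) := by
      have h2 : σ ((eQ n k y).1, (eQ n k y).2) = 0 := by
        by_contra h2
        have h4 := hσ1 _ _ h2
        omega
      rw [hA, Pi.add_apply, h2, add_zero]
      exact H2K.i2_xi_apply (eQ n k) (eQ_inj n k hk1 hk) x y
    have h2 : A ((eQ n k y).2, (eQ n k y).1) = 0 := by
      rw [hA, Pi.add_apply, H2K.i2_xi_zero (eQ n k) x, zero_add]
      · by_contra h2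
        have h4 := hσ1 _ _ h2
        omega
      · intro y' hy2
        have h5 := congrArg (fun c : Fin (2 * n) × Fin (2 * n) => c.1.val) hy2
        have h6 := congrArg (fun c : Fin (2 * n) × Fin (2 * n) => c.2.val) hy2
        have h7 := eQ_lt n k hk1 hk y'
        simp only at h5 h6
        omega
    rw [h1, h2]
    exact hy'
  rw [Complex.lt_def]
  constructor
  · rw [hσ2]
    exact q_strict n (2 * n - k) k' (by omega) (by omega) α hα hs hW g hg h.unit A hsup hns
  · rw [H2K.i0_herm β h.herm]
    rfl

theorem q5_tau (n k : ℕ) [NeZero n] (hk1 : 1 ≤ k) (hk : k ≤ n) (a s : Fin (rr n k) → ℂ) :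
    push (uK n k a) (fun c => dl c.1 (ix n (k - 1)) * yk n k s c.2) =
      fun c => wk n k a c.1 * yk n k s c.2 := by
  have hy0 : yk n k s (ix n (k - 1)) = 0 := by
    by_contra h
    have := (yk_supp n k s _ h).1
    rw [zk_val n k hk] at this
    omega
  funext c
  unfold push
  have h1 : ∀ p, ∑ q, uK n k a c.1 p * (dl (p, q).1 (ix n (k - 1)) * yk n k s (p, q).2) * uK n k a c.2 q =
      (uK n k a c.1 p * dl p (ix n (k - 1))) * yk n k s c.2 := by
    intro p
    have h2 := congrFun (uK_mulVec n k a (yk n k s) hy0) c.2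
    have h3 : ∑ q, uK n k a c.2 q * yk n k s q = yk n k s c.2 := h2
    rw [← h3, Finset.mul_sum]
    refine Finset.sum_congr rfl fun q _ => ?_
    ring
  simp only [h1]
  rw [← Finset.sum_mul]
  congr 1
  rw [Finset.sum_eq_single (ix n (k - 1))]
  · rw [uK_eq, dl, if_pos rfl, mul_one]
  · intro b _ hb
    rw [dl, if_neg hb, mul_zero]
  · intro h
    exact absurd (Finset.mem_univ _) h

theorem q5_inv (n k : ℕ) [NeZero n] (hk1 : 1 ≤ k) (hk : k ≤ n)
    (α β β' : Matrix (Fin (2 * n) × Fin (2 * n)) (Fin (2 * n) × Fin (2 * n)) ℂ)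
    (hα : α.IsHermitian) (hs : ∀ p q c, α (p, q) c = -α (q, p) c)
    (g : Matrix (Fin (2 * n)) (Fin (2 * n)) ℂ) (h : Inv n (k - 1) α (2 * n - k) β g)
    (a : Fin (rr n k) → ℂ) (hh : β'.IsHermitian)
    (hform : ∀ ξ : Fin (2 * n) × Fin (2 * n) → ℂ, ∃ t : Fin (rr n k) → ℂ,
      qf β' ξ = qf β (ξ + Dk n k a t))
    (hb : ∀ p c, β' (eQ n k (Sum.inr p)) c = ∑ t, (LL t).mulVec a p * β' (eQ n k (Sum.inl t)) c)
    (hrel : ∀ η : Fin (2 * n) × Fin (2 * n) → ℂ, (∀ d, ∑ c, η c * β c d = 0) →
      ∀ d, ∑ c, η c * β' c d = 0) :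
    Inv n k α (2 * n - k) (TU (uK n k a) * β' * (TU (uK n k a)).conjTranspose) (g * uK n k a) := by
  have hn : 0 < n := Nat.pos_of_ne_zero (NeZero.ne n)
  set u := uK n k a with hu
  set Y := β' * (TU u).conjTranspose with hY
  have hβ'skew : ∀ p q c, β' (p, q) c = -β' (q, p) c := by
    intro p q c
    have h1 := hrel (Pi.single (p, q) 1 + Pi.single (q, p) 1) (by
      intro d
      simp only [Pi.add_apply, add_mul, Finset.sum_add_distrib]
      simp only [Pi.single_apply, ite_mul, one_mul, zero_mul, Finset.sum_ite_eq',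
        Finset.mem_univ, if_true]
      rw [h.skew p q d]
      ring) c
    simp only [Pi.add_apply, add_mul, Finset.sum_add_distrib] at h1
    simp only [Pi.single_apply, ite_mul, one_mul, zero_mul, Finset.sum_ite_eq',
      Finset.mem_univ, if_true] at h1
    linear_combination h1
  have hYskew : ∀ p q c, Y (p, q) c = -Y (q, p) c := by
    intro p q c
    simp only [hY, Matrix.mul_apply]
    rw [← Finset.sum_neg_distrib]
    apply Finset.sum_congr rfl
    intro d _
    rw [hβ'skew p q d]
    ring
  have hent : ∀ p q c, (TU u * β' * (TU u).conjTranspose) (p, q) c =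
      ∑ a', ∑ b', u a' p * u b' q * Y (a', b') c := by
    intro p q c
    rw [Matrix.mul_assoc, ← hY, Matrix.mul_apply, Fintype.sum_prod_type]
    rfl
  have hY0 : ∀ p q : Fin (2 * n), p.val < k - 1 → p.val < q.val → q.val < 2 * n - k → ∀ c, Y (p, q) c = 0 := by
    intro p q hp hpq hq c
    have h2 : ∀ d, β' (p, q) d = 0 := by
      intro d
      have h3 := hrel (Pi.single (p, q) 1) (by
        intro d
        simp only [Pi.single_apply, ite_mul, one_mul, zero_mul, Finset.sum_ite_eq',
          Finset.mem_univ, if_true]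
        exact h.zero p q hp hpq hq d) d
      simpa only [Pi.single_apply, ite_mul, one_mul, zero_mul, Finset.sum_ite_eq',
        Finset.mem_univ, if_true] using h3
    rw [hY, Matrix.mul_apply]
    apply Finset.sum_eq_zero
    intro d _
    rw [h2 d, zero_mul]
  have hYb : ∀ p c, Y (ix n (k - 1), wj n k p) c = ∑ j, a j * Y (wj n k p, wj n k j) c := by
    intro p c
    have h3 := fun d => hb p d
    simp only [eQ] at h3
    have h4 : ∀ d, β' (ix n (k - 1), wj n k p) d = ∑ j, a j * β' (wj n k p, wj n k j) d := by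
      intro d
      rw [h3 d]
      exact sumL (fun i j => β' (wj n k i, wj n k j) d) (fun i j => hβ'skew _ _ d) a p
    simp only [hY, Matrix.mul_apply, h4, Finset.sum_mul, Finset.mul_sum]
    rw [Finset.sum_comm]
    apply Finset.sum_congr rfl
    intro r _
    apply Finset.sum_congr rfl
    intro d _
    ring
  -- a sum with a column `≠ k - 1`
  have hcol : ∀ (q : Fin (2 * n)) (F : Fin (2 * n) → ℂ), q ≠ ix n (k - 1) →
      ∑ b', u b' q * F b' = F q := by
    intro q F hq
    rw [Finset.sum_eq_single q]
    · rw [hu, uK_ne n k a q q hq, dl, if_pos rfl, one_mul]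
    · intro b _ hb'
      rw [hu, uK_ne n k a b q hq, dl, if_neg hb', zero_mul]
    · intro hh'
      exact absurd (Finset.mem_univ _) hh'
  refine ⟨?_, ?_, ?_, ?_, ?_⟩
  · exact Matrix.isHermitian_mul_mul_conjTranspose (TU u) hh
  · intro p q c
    rw [hent, hent, Finset.sum_comm, ← Finset.sum_neg_distrib]
    apply Finset.sum_congr rfl
    intro b' _
    rw [← Finset.sum_neg_distrib]
    apply Finset.sum_congr rfl
    intro a' _
    rw [hYskew a' b' c]
    ring
  · intro p q hpk hpq hqs c
    rw [hent]
    by_cases hp : p = ix n (k - 1)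
    · -- the new row
      have hq1 : q ≠ ix n (k - 1) := by
        rintro rfl
        rw [hp] at hpq
        omega
      have hpv : p.val = k - 1 := by rw [hp, zk_val n k hk]
      obtain ⟨j, hj⟩ : ∃ j : Fin (rr n k), q = wj n k j := by
        refine ⟨⟨q.val - k, by unfold rr; omega⟩, Fin.ext ?_⟩
        rw [wj_val]
        simp only
        omega
      have h3 : ∀ a', ∑ b', u a' p * u b' q * Y (a', b') c = wk n k a a' * Y (a', q) c := by
        intro a'
        have h4 := hcol q (fun b' => u a' p * Y (a', b') c) hq1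
        have h5 : ∑ b', u a' p * u b' q * Y (a', b') c = ∑ b', u b' q * (u a' p * Y (a', b') c) :=
          Finset.sum_congr rfl fun b' _ => by ring
        rw [h5, h4, hp, hu, uK_eq]
      simp only [h3]
      rw [hj]
      unfold wk dl
      simp only [add_mul, Finset.sum_add_distrib, ite_mul, one_mul, zero_mul, Finset.sum_ite_eq',
        Finset.mem_univ, if_true, Finset.sum_mul]
      rw [Finset.sum_comm, hYb j c]
      have h4 : ∑ y : Fin (rr n k), ∑ x : Fin (2 * n), a y * (if x = wj n k y then (1 : ℂ) else 0) *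
          Y (x, wj n k j) c = ∑ y, a y * Y (wj n k y, wj n k j) c := by
        apply Finset.sum_congr rfl
        intro y _
        rw [Finset.sum_eq_single (wj n k y)]
        · rw [if_pos rfl, mul_one]
        · intro b' _ hb'
          rw [if_neg hb']
          ring
        · intro hh'
          exact absurd (Finset.mem_univ _) hh'
      rw [h4, ← Finset.sum_add_distrib]
      apply Finset.sum_eq_zero
      intro y _
      rw [hYskew (wj n k j) (wj n k y) c]
      ring
    · -- the old rows
      have hpv : p.val < k - 1 := by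
        have h1 : p.val ≠ k - 1 := by
          intro h1
          apply hp
          apply Fin.ext
          rw [zk_val n k hk]
          exact h1
        omega
      have h3 : ∑ a', ∑ b', u a' p * u b' q * Y (a', b') c = ∑ b', u b' q * Y (p, b') c := by
        have h4 := hcol p (fun a' => ∑ b', u b' q * Y (a', b') c) hp
        rw [← h4]
        refine Finset.sum_congr rfl fun a' _ => ?_
        rw [Finset.mul_sum]
        exact Finset.sum_congr rfl fun b' _ => by ring
      rw [h3]
      by_cases hq : q = ix n (k - 1)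
      · refine Finset.sum_eq_zero fun b' _ => ?_
        rw [hq, hu, uK_eq]
        by_cases hw : wk n k a b' = 0
        · rw [hw, zero_mul]
        · have h5 := wk_supp n k hk1 hk a b' hw
          rw [hY0 p b' hpv (by omega) h5.2 c, mul_zero]
      · rw [hcol q (fun b' => Y (p, b') c) hq]
        exact hY0 p q hpv hpq hqs c
  · rw [Matrix.det_mul, hu, uK_det n k hk1 hk a, mul_one]
    exact h.unit
  · intro ξ
    obtain ⟨t, ht⟩ := hform (push u ξ)
    obtain ⟨σ, hσ1, hσ2⟩ := h.form (push u ξ + Dk n k a t)
    set τ : Fin (2 * n) × Fin (2 * n) → ℂ := fun c => dl c.1 (ix n (k - 1)) * yk n k t c.2 with hτ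
    refine ⟨τ + push (uK n k (-a)) σ, ?_, ?_⟩
    · intro p q hpq
      by_cases h1 : push (uK n k (-a)) σ (p, q) = 0
      · have h2 : τ (p, q) ≠ 0 := by
          intro h2
          apply hpq
          rw [Pi.add_apply, h1, h2, add_zero]
        simp only [hτ] at h2
        have h3 := left_ne_zero_of_mul h2
        have h4 := right_ne_zero_of_mul h2
        have h5 := yk_supp n k t q h4
        have h6 : p = ix n (k - 1) := by
          by_contra h6
          apply h3
          rw [dl, if_neg h6]
        have h7 : p.val = k - 1 := by rw [h6, zk_val n k hk]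
        omega
      · unfold push at h1
        obtain ⟨p', -, hp'⟩ := Finset.exists_ne_zero_of_sum_ne_zero h1
        obtain ⟨q', -, hq'⟩ := Finset.exists_ne_zero_of_sum_ne_zero hp'
        simp only at hq'
        have h2 := right_ne_zero_of_mul hq'
        have h3 := left_ne_zero_of_mul hq'
        have h4 := right_ne_zero_of_mul h3
        have h5 := left_ne_zero_of_mul h3
        obtain ⟨h6, h7, h8⟩ := hσ1 p' q' h4
        have h9 : p' ≠ ix n (k - 1) := by
          rintro rfl
          rw [zk_val n k hk] at h6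
          omega
        have h10 : p = p' := by
          rw [uK_ne n k (-a) p p' h9, dl] at h5
          by_contra h11
          rw [if_neg h11] at h5
          exact h5 rfl
        by_cases h11 : q' = ix n (k - 1)
        · rw [h11, uK_eq] at h2
          have h12 := wk_supp n k hk1 hk (-a) q h2
          rw [h10]
          omega
        · have h12 : q = q' := by
            rw [uK_ne n k (-a) q q' h11, dl] at h2
            by_contra h13
            rw [if_neg h13] at h2
            exact h2 rfl
          rw [h10, h12]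
          omega
    · have e1 : push (g * u) (ξ + (τ + push (uK n k (-a)) σ)) =
          push g (push u ξ + (fun c => wk n k a c.1 * yk n k t c.2) + σ) := by
        rw [← H2K.i0_push, H2K.i0_add u, H2K.i0_add u, hτ, hu, q5_tau n k hk1 hk a t,
          H2K.i0_push (uK n k a) (uK n k (-a)), uK_mul n k hk1 hk a, H2K.i0_one, add_assoc]
      rw [H2K.i0_TU, ht, hσ2, e1]
      apply H2K.i0_skew α hα hs
      intro P Q
      apply H2K.i0_part
      intro p q
      have h1 := Dk_skew n k a t p q
      simp only [Pi.add_apply]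
      linear_combination h1

end H87HP
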