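import Pool.Agent.Lib.H87.HopfHP.P2
import Pool.Agent.Lib.H87.HopfHP.P5
import Pool.Agent.Lib.H2K.I3C

/-!
# H87 HopfHP P6: the last stage and the core of Theorem (A+)

`T ≥ 0` on the two-vectors of rank `≤ 2 k` and on the two-vectors of rank `≤ 2 k'` of the hyperplane of the first `2 n - 1`
basis vectors, `2 n ≤ k + 2 k' + 1`: then `E |Pf κ|² ≥ 0` (here with strict positivity).
-/

open MvPolynomial
open scoped ComplexOrder

namespace H87HP

open H2K (qf W hPf ix push TU Inv StrictPos biv DD)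

/-- the last polynomial -/
noncomputable def FL (n k : ℕ) [NeZero n] : MvPolynomial (Fin (2 * n) × Fin (2 * n)) ℂ :=
  detT LL (eQ n k) * FFm n (2 * n - k) (k - 1) (2 * n - k)

theorem q6_detT (n k : ℕ) [NeZero n] (v : Fin (2 * n) × Fin (2 * n) → ℂ) (hv : ∀ p q, v (p, q) = -v (q, p)) :
    eval v (detT LL (eQ n k)) = (Matrix.of fun p q => v (wj n k p, wj n k q)).det := by
  rw [a3_detT]
  congr 1
  exact TT_skew (Matrix.of fun p q => v (wj n k p, wj n k q)) (fun i j => hv _ _)

/-- the two honest factors -/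
theorem q6_poly (n k : ℕ) [NeZero n] (hk1 : 1 ≤ k) (hk : k ≤ n) :
    ∃ (f : MvPolynomial (Fin k × Fin k) ℂ) (g : MvPolynomial (Fin (2 * n - 2 * k) × Fin (2 * n - 2 * k)) ℂ),
      ∀ v : Fin (2 * n) × Fin (2 * n) → ℂ, (∀ p q, v (p, q) = -v (q, p)) →
        (∀ p q : Fin (2 * n), p.val < k → q.val < 2 * n - k → v (p, q) = 0) →
        eval v (FL n k) = eval (fun t => v (H2K.jj n k (Sum.inl t))) f *
          eval (fun t => v (H2K.jj n k (Sum.inr t))) g := by
  have hn : 0 < n := Nat.pos_of_ne_zero (NeZero.ne n)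
  refine ⟨bind₁ (H2K.i3a_phi n k) ((∏ t ∈ Finset.Ico 1 (2 * n - k), DD n (2 * n - k) (min t (k - 1))) *
    DD n (2 * n - k) k), Matrix.det (Matrix.of fun p q : Fin (2 * n - 2 * k) => (X (p, q) :
    MvPolynomial (Fin (2 * n - 2 * k) × Fin (2 * n - 2 * k)) ℂ)) * bind₁ (H2K.i3a_psi n k) (hPf n), ?_⟩
  intro v hskew hzero
  have hD : ∀ i, i ≤ k → eval (fun c => eval (fun t => v (H2K.jj n k (Sum.inl t))) (H2K.i3a_phi n k c))
      (DD n (2 * n - k) i) = eval v (DD n (2 * n - k) i) := by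
    intro i hi
    rw [H2K.i3a_DD, H2K.i3a_DD]
    congr 1
    ext p q
    simp only [Matrix.of_apply]
    have hp : (ix n p.val).val = p.val := H2K.i0_ix n _ (by omega)
    have hq : (ix n (2 * n - k + q.val)).val = 2 * n - k + q.val := H2K.i0_ix n _ (by omega)
    unfold H2K.i3a_phi
    have h : (ix n p.val).val < k ∧ (ix n (2 * n - k + q.val)).val - (2 * n - k) < k := by
      rw [hp, hq]
      omega
    rw [dif_pos h, eval_X]
    simp only [H2K.jj, hp, hq]
    congr 3
    omega
  have hP : (fun c => eval (fun t => v (H2K.jj n k (Sum.inr t))) (H2K.i3a_psi n k c)) = H2K.stdK n k v := by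
    funext c
    unfold H2K.i3a_psi H2K.stdK
    by_cases h1 : k ≤ c.1.val ∧ k ≤ c.2.val ∧ c.1.val < 2 * n - k ∧ c.2.val < 2 * n - k
    · rw [dif_pos h1, if_pos h1, eval_X]
      simp only [H2K.jj]
      congr 1
      apply Prod.ext
      · apply Fin.ext
        simp only
        rw [H2K.i0_ix n _ (by omega)]
        omega
      · apply Fin.ext
        simp only
        rw [H2K.i0_ix n _ (by omega)]
        omega
    · rw [dif_neg h1, if_neg h1]
      by_cases h2 : c.1.val < k ∧ c.2.val = 2 * n - k + c.1.val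
      · rw [if_pos h2, if_pos h2, map_one]
      · rw [if_neg h2, if_neg h2]
        by_cases h3 : c.2.val < k ∧ c.1.val = 2 * n - k + c.2.val
        · rw [if_pos h3, if_pos h3, map_neg, map_one]
        · rw [if_neg h3, if_neg h3, map_zero]
  have hT : eval (fun t => v (H2K.jj n k (Sum.inr t))) (Matrix.det (Matrix.of fun p q : Fin (2 * n - 2 * k) =>
      (X (p, q) : MvPolynomial (Fin (2 * n - 2 * k) × Fin (2 * n - 2 * k)) ℂ))) =
      (Matrix.of fun p q => v (wj n k p, wj n k q)).det := by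
    rw [RingHom.map_det]
    congr 1
    ext p q
    simp only [RingHom.mapMatrix_apply, Matrix.map_apply, Matrix.of_apply, eval_X]
    rfl
  have e1 : eval (fun t => v (H2K.jj n k (Sum.inl t))) (bind₁ (H2K.i3a_phi n k)
      ((∏ t ∈ Finset.Ico 1 (2 * n - k), DD n (2 * n - k) (min t (k - 1))) * DD n (2 * n - k) k)) =
      (∏ t ∈ Finset.Ico 1 (2 * n - k), eval v (DD n (2 * n - k) (min t (k - 1)))) *
        eval v (DD n (2 * n - k) k) := by
    rw [H2K.i3a_bind, map_mul, map_prod, hD k le_rfl]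
    rw [Finset.prod_congr rfl (fun t _ => hD (min t (k - 1)) ((min_le_right _ _).trans (by omega)))]
  have e2 : eval (fun t => v (H2K.jj n k (Sum.inr t))) (Matrix.det (Matrix.of fun p q :
      Fin (2 * n - 2 * k) => (X (p, q) : MvPolynomial (Fin (2 * n - 2 * k) × Fin (2 * n - 2 * k)) ℂ)) *
      bind₁ (H2K.i3a_psi n k) (hPf n)) =
      (Matrix.of fun p q => v (wj n k p, wj n k q)).det * eval (H2K.stdK n k v) (hPf n) := by
    rw [map_mul, hT, H2K.i3a_bind, hP]
  rw [e1, e2]
  unfold FL FFm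
  rw [map_mul, map_mul, map_prod, q6_detT n k v hskew, H2K.p2_factor n k hk v hskew hzero]
  ring

theorem q6_inv (n k : ℕ) [NeZero n] (hk1 : 1 ≤ k) (hk : k ≤ n) (a : Fin (rr n k) → ℂ)
    (v : Fin (2 * n) × Fin (2 * n) → ℂ) :
    eval ((TU (uK n k a)).mulVec v) (FL n k) = eval v (FL n k) := by
  have hn : 0 < n := Nat.pos_of_ne_zero (NeZero.ne n)
  have hent : ∀ P Q : Fin (2 * n), P ≠ ix n (k - 1) → Q ≠ ix n (k - 1) →
      (TU (uK n k a)).mulVec v (P, Q) = v (P, Q) := by
    intro P Q hP hQ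
    rw [H2K.i0_TUv]
    simp only
    have h1 : ∀ A, uK n k a A P = dl A P := fun A => uK_ne n k a A P hP
    have h2 : ∀ A, uK n k a A Q = dl A Q := fun A => uK_ne n k a A Q hQ
    simp only [h1, h2, dl]
    rw [Finset.sum_eq_single P, Finset.sum_eq_single Q]
    · simp
    · intro b _ hb
      simp [hb]
    · simp
    · intro b _ hb
      simp [hb]
    · simp
  unfold FL FFm
  rw [map_mul, map_mul, map_mul, map_mul, map_prod, map_prod]
  congr 1
  · rw [a3_detT, a3_detT]
    congr 2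
    funext t
    exact hent _ _ (wj_ne n k hk1 hk _) (wj_ne n k hk1 hk _)
  · congr 1
    · refine Finset.prod_congr rfl fun t ht => ?_
      rw [Finset.mem_Ico] at ht
      rw [H2K.i3a_DD, H2K.i3a_DD]
      congr 1
      ext p q
      simp only [Matrix.of_apply]
      have hp := p.2
      have hq := q.2
      have h1 := min_le_left t (k - 1)
      have h2 := min_le_right t (k - 1)
      apply hent
      · intro h
        have h3 := congrArg Fin.val h
        rw [H2K.i0_ix n _ (by omega), zk_val n k hk] at h3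
        omega
      · intro h
        have h3 := congrArg Fin.val h
        rw [H2K.i0_ix n _ (by omega), zk_val n k hk] at h3
        omega
    · rw [H2K.i0_TUv, H2K.p1_equivariant, uK_det n k hk1 hk, one_mul]

/-- the Y block -/
theorem q6_psd2 (n k k' : ℕ) [NeZero n] (hk1 : 1 ≤ k) (hk : k ≤ n) (hnk : 2 * n ≤ k + 2 * k' + 1)
    (α β : Matrix (Fin (2 * n) × Fin (2 * n)) (Fin (2 * n) × Fin (2 * n)) ℂ)
    (hα : α.IsHermitian) (hs : ∀ p q c, α (p, q) c = -α (q, p) c) (hW : StrictW n k' α)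
    (g : Matrix (Fin (2 * n)) (Fin (2 * n)) ℂ) (h : Inv n k α (2 * n - k) β g) (hg : HypM g) :
    (β.submatrix (fun t => H2K.jj n k (Sum.inr t)) (fun t => H2K.jj n k (Sum.inr t))).PosSemidef := by
  have hn : 0 < n := Nat.pos_of_ne_zero (NeZero.ne n)
  rw [Matrix.posSemidef_iff_dotProduct_mulVec]
  refine ⟨h.herm.submatrix _, ?_⟩
  intro x
  rw [H2K.i2_sub, Complex.le_def]
  refine ⟨?_, (H2K.i0_herm β h.herm _).symm⟩
  obtain ⟨σ, hσ1, hσ2⟩ := h.form (H2K.i2_xi (fun t => H2K.jj n k (Sum.inr t)) x)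
  rw [hσ2]
  refine q_weak n (2 * n - k) k' (by omega) (by omega) α hα hs hW g hg h.unit _ ?_
  intro p q hpq
  by_contra hc
  apply hpq
  rw [Pi.add_apply, H2K.i2_xi_zero _ x (p, q), zero_add]
  · by_contra h1
    have := hσ1 p q h1
    omega
  · intro t ht
    have h1 := congrArg (fun c : Fin (2 * n) × Fin (2 * n) => c.1.val) ht
    have h2 := congrArg (fun c : Fin (2 * n) × Fin (2 * n) => c.2.val) ht
    simp only [H2K.jj] at h1 h2
    rw [H2K.i0_ix n _ (by omega)] at h1 h2
    omega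

theorem q6_last (n k k' : ℕ) [NeZero n] (hk1 : 1 ≤ k) (hk : k ≤ n) (hnk : 2 * n ≤ k + 2 * k' + 1)
    (α β : Matrix (Fin (2 * n) × Fin (2 * n)) (Fin (2 * n) × Fin (2 * n)) ℂ)
    (hα : α.IsHermitian) (hs : ∀ p q c, α (p, q) c = -α (q, p) c) (hW : StrictW n k' α)
    (g : Matrix (Fin (2 * n)) (Fin (2 * n)) ℂ) (hg : HypM g)
    (hw : ∀ z w : Fin k → Fin (2 * n) → ℂ, 0 ≤ (qf α (biv z w)).re)
    (h : Inv n k α (2 * n - k) β g) :
    0 ≤ (W β (FL n k) (FL n k)).re := by
  have hn : 0 < n := Nat.pos_of_ne_zero (NeZero.ne n)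
  have hz : ∀ p q : Fin (2 * n), p.val < k → q.val < 2 * n - k → ∀ d, β (p, q) d = 0 := by
    intro p q hp hq d
    rcases lt_trichotomy p.val q.val with h1 | h1 | h1
    · exact h.zero p q hp h1 hq d
    · have h2 : p = q := Fin.ext h1
      rw [← h2]
      have h3 := h.skew p p d
      have h4 : (2 : ℂ) * β (p, p) d = 0 := by linear_combination h3
      exact (mul_eq_zero.1 h4).resolve_left two_ne_zero
    · rw [h.skew p q d, h.zero q p (by omega) h1 (by omega) d, neg_zero]
  have hPb : H2K.i3c_PE n k * β = β := by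
    ext c d
    rw [Matrix.mul_apply, H2K.i3c_sum n k c (fun e => β e d)]
    by_cases hc : H2K.i3c_Z n k c
    · rw [if_pos hc]
      rcases hc with hc | hc
      · exact (hz c.1 c.2 hc.1 hc.2 d).symm
      · have h1 := h.skew c.1 c.2 d
        rw [hz c.2 c.1 hc.1 hc.2 d, neg_zero] at h1
        exact h1.symm
    · rw [if_neg hc]
      have h1 := h.skew c.1 c.2 d
      have h2 : β c d = β (c.1, c.2) d := rfl
      rw [h2, h1]
      ring
  have hPbP : H2K.i3c_PE n k * β * (H2K.i3c_PE n k).conjTranspose = β := by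
    rw [hPb]
    have h1 := congrArg Matrix.conjTranspose hPb
    rw [Matrix.conjTranspose_mul, h.herm.eq] at h1
    exact h1
  obtain ⟨f, g', hfg⟩ := q6_poly n k hk1 hk
  have hR := H2K.r1_restrict β (H2K.i3c_PE n k) (H2K.jj n k) hPbP (FL n k)
    (rename Sum.inl f * rename Sum.inr g') (by
      intro v
      have hv : ∀ c, (H2K.i3c_PE n k).mulVec v c =
          if H2K.i3c_Z n k c then 0 else (v c - v (c.2, c.1)) / 2 :=
        fun c => H2K.i3c_sum n k c v
      rw [hfg ((H2K.i3c_PE n k).mulVec v)]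
      · rw [map_mul, eval_rename, eval_rename]
        rfl
      · intro p q
        rw [hv, hv]
        by_cases hc : H2K.i3c_Z n k (p, q)
        · have hc' : H2K.i3c_Z n k (q, p) := by
            unfold H2K.i3c_Z at hc ⊢
            exact hc.symm
          rw [if_pos hc, if_pos hc', neg_zero]
        · have hc' : ¬ H2K.i3c_Z n k (q, p) := by
            intro h1
            apply hc
            unfold H2K.i3c_Z at h1 ⊢
            exact h1.symm
          rw [if_neg hc, if_neg hc']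
          ring
      · intro p q hp hq
        have hc : H2K.i3c_Z n k (p, q) := Or.inl ⟨hp, hq⟩
        rw [hv, if_pos hc])
  rw [hR]
  apply H2K.x2_lemmaX
  · exact h.herm.submatrix _
  · exact H2K.i3_psd1 n k hk α β g hw h
  · exact q6_psd2 n k k' hk1 hk hnk α β hα hs hW g h hg

theorem strict_mono (n k l : ℕ) (hkl : l ≤ k)
    (α : Matrix (Fin (2 * n) × Fin (2 * n)) (Fin (2 * n) × Fin (2 * n)) ℂ) (hp : StrictPos n k α) :
    StrictPos n l α := by
  obtain ⟨r, rfl⟩ := Nat.exists_eq_add_of_le hkl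
  intro z w hzw
  have h2 : biv (Fin.append z (fun _ : Fin r => (0 : Fin (2 * n) → ℂ)))
      (Fin.append w (fun _ : Fin r => (0 : Fin (2 * n) → ℂ))) = biv z w := by
    funext c
    unfold H2K.biv
    rw [Fin.sum_univ_add]
    simp [Fin.append_left, Fin.append_right]
  have h1 := hp (Fin.append z (fun _ => 0)) (Fin.append w (fun _ => 0))
  rw [h2] at h1
  exact h1 hzw

/-- THE CORE of Theorem (A+) -/
theorem hpk_core (n k k' : ℕ) [NeZero n] (hk1 : 1 ≤ k) (hk : k ≤ n) (hnk : 2 * n ≤ k + 2 * k' + 1)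
    (α : Matrix (Fin (2 * n) × Fin (2 * n)) (Fin (2 * n) × Fin (2 * n)) ℂ)
    (hα : α.IsHermitian) (hs : ∀ p q c, α (p, q) c = -α (q, p) c)
    (hp : StrictPos n k α) (hW : StrictW n k' α) :
    0 ≤ (W α (hPf n) (hPf n)).re := by
  have hn : 0 < n := Nat.pos_of_ne_zero (NeZero.ne n)
  refine q_start n (k - 1) (2 * n - k) (by omega) (by omega) (by omega) (by omega) α hα hs
    (strict_mono n k (k - 1) (by omega) α hp) ?_
  intro β g hI hg
  have hL : ∃ x : PP (rr n k) → ℂ, (TT LL x).det ≠ 0 := by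
    have h := TT_det (n - k)
    have e : 2 * (n - k) = rr n k := by unfold rr; omega
    rw [e] at h
    exact h
  refine a4_step LL hL (eQ n k) (eQ_inj n k hk1 hk) β hI.herm
    (q5_pos n k k' hk1 hk hnk α β hα hs hW g hI hg) _ ?_
  intro a β' hh hform hb hrel
  have hI' := q5_inv n k hk1 hk α β β' hα hs g hI a hh hform hb hrel
  have h1 := q6_last n k k' hk1 hk hnk α _ hα hs hW (g * uK n k a) (hyp_uK n k hk1 hk a g hg)
    (H2K.i0_weak n k α hα hs hp) hI'
  rw [H2K.r1_push β' (TU (uK n k a)) (FL n k) (q6_inv n k hk1 hk a)] at h1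
  exact h1

end H87HP
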