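import Pool.Agent.Lib.H87.HopfHP.A1

/-!
# H87 HopfHP B1: the family of skew matrices, coordinates `x_t`, `t = (i, j)`, `i < j`
-/

namespace H87HP

/-- the pairs `i < j` -/
abbrev PP (k : ℕ) : Type := {u : Fin k × Fin k // u.1 < u.2}

/-- the skew matrix `E_ij - E_ji` -/
noncomputable def LL {k : ℕ} (t : PP k) : Matrix (Fin k) (Fin k) ℂ :=
  Matrix.single t.1.1 t.1.2 1 - Matrix.single t.1.2 t.1.1 1

theorem LL_mulVec {k : ℕ} (t : PP k) (a : Fin k → ℂ) (p : Fin k) :
    (LL t).mulVec a p = (if p = t.1.1 then a t.1.2 else 0) - (if p = t.1.2 then a t.1.1 else 0) := by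
  unfold LL
  rw [Matrix.sub_mulVec, Pi.sub_apply]
  simp only [Matrix.mulVec, dotProduct, Matrix.single_apply, ite_mul, one_mul, zero_mul]
  congr 1
  · rw [Finset.sum_eq_single t.1.2]
    · simp [eq_comm]
    · intro b _ hb
      rw [if_neg (fun h => hb h.2.symm)]
    · simp
  · rw [Finset.sum_eq_single t.1.1]
    · simp [eq_comm]
    · intro b _ hb
      rw [if_neg (fun h => hb h.2.symm)]
    · simp

theorem sum_lt {k : ℕ} (G : Fin k → Fin k → ℂ) (hG : ∀ i j, G i j = G j i) (hd : ∀ i, G i i = 0) :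
    ∑ t : PP k, G t.1.1 t.1.2 = (∑ i, ∑ j, G i j) / 2 := by
  have h1 : ∑ t : PP k, G t.1.1 t.1.2 =
      ∑ u : Fin k × Fin k, if u.1 < u.2 then G u.1 u.2 else 0 := by
    rw [← Finset.sum_filter]
    exact (Finset.sum_subtype (Finset.univ.filter fun u : Fin k × Fin k => u.1 < u.2) (by simp)
      (fun u : Fin k × Fin k => G u.1 u.2)).symm
  have h2 : (∑ u : Fin k × Fin k, if u.1 < u.2 then G u.1 u.2 else 0) =
      ∑ u : Fin k × Fin k, if u.2 < u.1 then G u.1 u.2 else 0 := by
    rw [← (Equiv.prodComm (Fin k) (Fin k)).sum_comp]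
    refine Finset.sum_congr rfl fun u _ => ?_
    simp only [Equiv.prodComm_apply, Prod.fst_swap, Prod.snd_swap]
    rw [hG u.2 u.1]
  have h3 : (∑ u : Fin k × Fin k, if u.1 < u.2 then G u.1 u.2 else 0) +
      (∑ u : Fin k × Fin k, if u.2 < u.1 then G u.1 u.2 else 0) = ∑ i, ∑ j, G i j := by
    rw [← Finset.sum_add_distrib, Fintype.sum_prod_type]
    refine Finset.sum_congr rfl fun i _ => Finset.sum_congr rfl fun j _ => ?_
    simp only
    rcases lt_trichotomy i j with h | h | h
    · rw [if_pos h, if_neg (not_lt.2 h.le), add_zero]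
    · subst h
      rw [if_neg (lt_irrefl _), hd, add_zero]
    · rw [if_pos h, if_neg (not_lt.2 h.le), zero_add]
  rw [h1]
  rw [← h2] at h3
  linear_combination (1 / 2 : ℂ) * h3

/-- `∑_t (L_t a)_p φ(t) = ∑_j a_j φ(p, j)` for skew `φ` -/
theorem sumL {k : ℕ} (φ : Fin k → Fin k → ℂ) (hφ : ∀ i j, φ i j = -φ j i) (a : Fin k → ℂ) (p : Fin k) :
    ∑ t : PP k, (LL t).mulVec a p * φ t.1.1 t.1.2 = ∑ j, a j * φ p j := by
  have h0 := sum_lt (fun i j => ((if p = i then a j else 0) - (if p = j then a i else 0)) * φ i j)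
    (by
      intro i j
      rw [hφ j i]
      ring)
    (by
      intro i
      ring)
  simp only [LL_mulVec]
  rw [h0]
  have h1 : ∀ i j, ((if p = i then a j else 0) - (if p = j then a i else 0)) * φ i j =
      (if p = i then a j * φ i j else 0) + (if p = j then a i * φ j i else 0) := by
    intro i j
    rw [hφ i j]
    split_ifs <;> ring
  simp only [h1, Finset.sum_add_distrib]
  have h2 : (∑ i, ∑ j, if p = i then a j * φ i j else 0) = ∑ j, a j * φ p j := by
    rw [Finset.sum_eq_single p]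
    · simp
    · intro b _ hb
      simp [Ne.symm hb]
    · simp
  have h3 : (∑ i, ∑ j, if p = j then a i * φ j i else 0) = ∑ j, a j * φ p j := by
    refine Finset.sum_congr rfl fun i _ => ?_
    simp
  rw [h2, h3]
  ring

theorem TT_skew {k : ℕ} (K : Matrix (Fin k) (Fin k) ℂ) (hK : ∀ i j, K i j = -K j i) :
    TT LL (fun t : PP k => K t.1.1 t.1.2) = K := by
  ext p s
  rw [TT_apply]
  have h := sumL K hK (Pi.single s 1) p
  simp only [Matrix.mulVec_single_one] at h
  have h2 : ∑ j, (Pi.single s (1 : ℂ) : Fin k → ℂ) j * K p j = K p s := by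
    simp [Pi.single_apply]
  rw [h2] at h
  rw [← h]
  exact Finset.sum_congr rfl fun u _ => mul_comm _ _

theorem TT_det (m : ℕ) : ∃ x : PP (2 * m) → ℂ, (TT LL x).det ≠ 0 := by
  have hc : Fintype.card (Fin m ⊕ Fin m) = Fintype.card (Fin (2 * m)) := by
    simp [two_mul]
  let E := Fintype.equivOfCardEq hc
  set K : Matrix (Fin (2 * m)) (Fin (2 * m)) ℂ := (Matrix.J (Fin m) ℂ).submatrix E.symm E.symm with hK
  have hs : ∀ i j, K i j = -K j i := by
    intro i j
    have h := Matrix.J_transpose (Fin m) ℂ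
    have h2 := congrFun (congrFun h (E.symm i)) (E.symm j)
    rw [Matrix.transpose_apply, Matrix.neg_apply] at h2
    rw [hK, Matrix.submatrix_apply, Matrix.submatrix_apply, h2, neg_neg]
  refine ⟨fun t => K t.1.1 t.1.2, ?_⟩
  rw [TT_skew K hs, hK, Matrix.det_submatrix_equiv_self]
  exact (Matrix.isUnit_det_J (Fin m) ℂ).ne_zero

end H87HP
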