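import Pool.Agent.Lib.H87.HopfHP.A2
import Pool.Agent.Lib.H87.HopfHP.B1
import Pool.Agent.Lib.H2K.I3C
import Pool.Agent.Lib.H2K.I1

/-!
# H87 HopfHP B2: indices, the new basis vector `w = w_0 + ∑ a_j w_j`, the correction terms
-/

open MvPolynomial
open scoped ComplexOrder

namespace H87HP

open H2K (qf W hPf ix push TU)

/-- number of middle indices -/
abbrev kk (n : ℕ) : ℕ := 2 * n - 2 * 1

/-- middle indices -/
def wi (n : ℕ) [NeZero n] (p : Fin (kk n)) : Fin (2 * n) := ix n (1 + p)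

theorem wi_val (n : ℕ) [NeZero n] (p : Fin (kk n)) : (wi n p).val = 1 + p.val := by
  have := p.2
  unfold kk at this
  exact H2K.i0_ix n _ (by omega)

theorem wi_inj (n : ℕ) [NeZero n] : Function.Injective (wi n) := by
  intro p q h
  have h1 := congrArg Fin.val h
  rw [wi_val, wi_val] at h1
  exact Fin.ext (by omega)

theorem z_val (n : ℕ) [NeZero n] : (ix n 0).val = 0 := by
  have hn : 0 < n := Nat.pos_of_ne_zero (NeZero.ne n)
  exact H2K.i0_ix n _ (by omega)

theorem wi_ne (n : ℕ) [NeZero n] (p : Fin (kk n)) : wi n p ≠ ix n 0 := by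
  intro h
  have h1 := congrArg Fin.val h
  rw [wi_val, z_val] at h1
  omega

/-- coordinates -/
def eP (n : ℕ) [NeZero n] : PP (kk n) ⊕ Fin (kk n) → Fin (2 * n) × Fin (2 * n)
  | Sum.inl t => (wi n t.1.1, wi n t.1.2)
  | Sum.inr p => (ix n 0, wi n p)

theorem eP_inj (n : ℕ) [NeZero n] : Function.Injective (eP n) := by
  intro x y hxy
  rcases x with t | p <;> rcases y with t' | p'
  · simp only [eP, Prod.mk.injEq] at hxy
    exact congrArg Sum.inl (Subtype.ext (Prod.ext (wi_inj n hxy.1) (wi_inj n hxy.2)))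
  · simp only [eP, Prod.mk.injEq] at hxy
    exact absurd hxy.1 (wi_ne n _)
  · simp only [eP, Prod.mk.injEq] at hxy
    exact absurd hxy.1.symm (wi_ne n _)
  · simp only [eP, Prod.mk.injEq] at hxy
    exact congrArg Sum.inr (wi_inj n hxy.2)

theorem eP_lt (n : ℕ) [NeZero n] (x : PP (kk n) ⊕ Fin (kk n)) :
    (eP n x).1.val < (eP n x).2.val ∧ (eP n x).2.val < 2 * n - 1 := by
  have hn : 0 < n := Nat.pos_of_ne_zero (NeZero.ne n)
  rcases x with t | p
  · simp only [eP, wi_val]
    have h1 : t.1.1.val < t.1.2.val := t.2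
    have h2 := t.1.2.2
    unfold kk at h2
    omega
  · simp only [eP, wi_val, z_val]
    have h2 := p.2
    unfold kk at h2
    omega

/-- Kronecker delta -/
noncomputable def dl {J : Type} [DecidableEq J] (x y : J) : ℂ := if x = y then 1 else 0

theorem single_dl {J : Type} [DecidableEq J] (x y : J) (c : J × J) :
    (Pi.single (x, y) (1 : ℂ) : J × J → ℂ) c = dl c.1 x * dl c.2 y := by
  unfold dl
  rw [Pi.single_apply]
  by_cases h1 : c.1 = x <;> by_cases h2 : c.2 = y <;> simp [Prod.ext_iff, h1, h2]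

/-- `w = w_0 + ∑ a_j w_j` -/
noncomputable def wv (n : ℕ) [NeZero n] (a : Fin (kk n) → ℂ) (A : Fin (2 * n)) : ℂ :=
  dl A (ix n 0) + ∑ j, a j * dl A (wi n j)

/-- `y = ∑ s_p w_p` -/
noncomputable def yv (n : ℕ) [NeZero n] (s : Fin (kk n) → ℂ) (A : Fin (2 * n)) : ℂ :=
  ∑ p, s p * dl A (wi n p)

/-- the correction term -/
noncomputable def Dv (n : ℕ) [NeZero n] (a s : Fin (kk n) → ℂ) : Fin (2 * n) × Fin (2 * n) → ℂ :=
  ∑ p, s p • (Pi.single (eP n (Sum.inr p)) (1 : ℂ) -
    ∑ t, (LL t).mulVec a p • Pi.single (eP n (Sum.inl t)) (1 : ℂ))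

theorem Dv_skew (n : ℕ) [NeZero n] (a s : Fin (kk n) → ℂ) (P Q : Fin (2 * n)) :
    Dv n a s (P, Q) - Dv n a s (Q, P) = wv n a P * yv n s Q - wv n a Q * yv n s P := by
  have h1 : ∀ c, Dv n a s c = ∑ p, s p * (dl c.1 (ix n 0) * dl c.2 (wi n p) -
      ∑ t : PP (kk n), (LL t).mulVec a p * (dl c.1 (wi n t.1.1) * dl c.2 (wi n t.1.2))) := by
    intro c
    unfold Dv
    rw [Finset.sum_apply]
    refine Finset.sum_congr rfl fun p _ => ?_
    rw [Pi.smul_apply, Pi.sub_apply, Finset.sum_apply, smul_eq_mul]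
    simp only [Pi.smul_apply, smul_eq_mul, eP, single_dl]
  rw [h1, h1, ← Finset.sum_sub_distrib]
  unfold yv
  rw [Finset.mul_sum, Finset.mul_sum, ← Finset.sum_sub_distrib]
  refine Finset.sum_congr rfl fun p _ => ?_
  have h2 := sumL (fun i j => dl P (wi n i) * dl Q (wi n j) - dl Q (wi n i) * dl P (wi n j))
    (fun i j => by ring) a p
  simp only [mul_sub, Finset.sum_sub_distrib] at h2
  have h3 : ∑ j, a j * (dl P (wi n p) * dl Q (wi n j)) = dl P (wi n p) * ∑ j, a j * dl Q (wi n j) := by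
    rw [Finset.mul_sum]
    exact Finset.sum_congr rfl fun j _ => by ring
  have h4 : ∑ j, a j * (dl Q (wi n p) * dl P (wi n j)) = dl Q (wi n p) * ∑ j, a j * dl P (wi n j) := by
    rw [Finset.mul_sum]
    exact Finset.sum_congr rfl fun j _ => by ring
  rw [h3, h4] at h2
  unfold wv
  linear_combination (-s p) * h2

theorem wv_last (n : ℕ) [NeZero n] (a : Fin (kk n) → ℂ) (A : Fin (2 * n)) (hA : A.val = 2 * n - 1) :
    wv n a A = 0 := by
  have hn : 0 < n := Nat.pos_of_ne_zero (NeZero.ne n)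
  have h1 : A ≠ ix n 0 := by
    intro h
    have h1 := congrArg Fin.val h
    rw [z_val] at h1
    omega
  have h2 : ∀ j, A ≠ wi n j := by
    intro j h
    have h1 := congrArg Fin.val h
    have h2 := j.2
    unfold kk at h2
    rw [wi_val] at h1
    omega
  unfold wv dl
  simp [h1, h2]

theorem yv_last (n : ℕ) [NeZero n] (s : Fin (kk n) → ℂ) (A : Fin (2 * n)) (hA : A.val = 2 * n - 1) :
    yv n s A = 0 := by
  have h2 : ∀ j, A ≠ wi n j := by
    intro j h
    have h1 := congrArg Fin.val h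
    have h2 := j.2
    unfold kk at h2
    rw [wi_val] at h1
    omega
  unfold yv dl
  simp [h2]

/-- the change of basis -/
noncomputable def uM (n : ℕ) [NeZero n] (a : Fin (kk n) → ℂ) : Matrix (Fin (2 * n)) (Fin (2 * n)) ℂ :=
  fun A P => if P = ix n 0 then wv n a A else dl A P

theorem uM_det (n : ℕ) [NeZero n] (a : Fin (kk n) → ℂ) : (uM n a).det = 1 := by
  have h : uM n a = 1 + Matrix.replicateCol Unit (fun A => ∑ j, a j * dl A (wi n j)) *
      Matrix.replicateRow Unit (Pi.single (ix n 0) (1 : ℂ)) := by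
    ext A P
    rw [Matrix.add_apply, Matrix.mul_apply, Matrix.one_apply]
    simp only [Finset.univ_unique, Finset.sum_singleton, Matrix.replicateCol_apply,
      Matrix.replicateRow_apply]
    unfold uM
    by_cases hP : P = ix n 0
    · rw [if_pos hP, hP, Pi.single_eq_same, mul_one]
      rfl
    · rw [if_neg hP, Pi.single_eq_of_ne hP, mul_zero, add_zero]
      rfl
  rw [h, Matrix.det_one_add_replicateCol_mul_replicateRow, single_dotProduct]
  have h2 : ∀ j, ix n 0 ≠ wi n j := fun j h => wi_ne n j h.symm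
  unfold dl
  simp [h2]

end H87HP
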