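import Pool.Agent.Lib.H2K.I1
import Pool.Agent.Lib.H2K.I2
import Pool.Agent.Lib.H2K.P4

/-!
# H87 HopfHP P1: the elimination steps of H2K with the pivots in the columns `m + q`, `m + k ≤ 2 n` arbitrary

Copies of `H2K.i1_inv`, `H2K.i2_posDef`, `H2K.p4_inv` (there `m = 2 n - k`), and the hyperplane `W` of the first
`2 n - 1` basis vectors (`HypM g`: `g` maps `W` to itself).
-/

open MvPolynomial
open scoped ComplexOrder

namespace H87HP

open H2K

/-- the polynomial of stage `s` -/
noncomputable def FFm (n : ℕ) [NeZero n] (m k s : ℕ) : MvPolynomial (Fin (2 * n) × Fin (2 * n)) ℂ :=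
  (∏ t ∈ Finset.Ico 1 s, DD n m (min t k)) * hPf n

/-- `g` maps the hyperplane of the first `2 n - 1` basis vectors to itself -/
def HypM {n : ℕ} (g : Matrix (Fin (2 * n)) (Fin (2 * n)) ℂ) : Prop :=
  ∀ p q : Fin (2 * n), p.val = 2 * n - 1 → q.val ≠ 2 * n - 1 → g p q = 0

theorem hyp_uu (n : ℕ) [NeZero n] (m s : ℕ) {i : ℕ} (hs : s < m) (hm : m + i ≤ 2 * n - 1)
    (a : Fin i → ℂ) (g : Matrix (Fin (2 * n)) (Fin (2 * n)) ℂ) (hg : HypM g) :
    HypM (g * uu n m s a) := by
  intro p q hp hq
  rw [Matrix.mul_apply]
  refine Finset.sum_eq_zero fun r _ => ?_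
  by_cases hr : r.val = 2 * n - 1
  · rw [i0_uu n m s hs (by omega) a r q]
    have h1 : r ≠ q := by
      rintro rfl
      exact hq hr
    split_ifs with h2 h3
    · omega
    · ring
    · ring
  · rw [hg p r hp hr, zero_mul]

theorem q1_inv (n k m s : ℕ) [NeZero n] (hsm : s < m) (hmk : m + k ≤ 2 * n)
    (α β β' : Matrix (Fin (2 * n) × Fin (2 * n)) (Fin (2 * n) × Fin (2 * n)) ℂ)
    (g : Matrix (Fin (2 * n)) (Fin (2 * n)) ℂ) (h : Inv n k α s β g)
    (a : Fin (min s k) → ℂ) (hh : β'.IsHermitian)
    (hform : ∀ ξ : Fin (2 * n) × Fin (2 * n) → ℂ, ∃ t : Fin (min s k) → ℂ,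
      qf β' ξ = qf β (ξ + ∑ p, t p •
        (Pi.single (eH n (m) s (min s k) (Sum.inr p)) (1 : ℂ) -
          ∑ q, a q • Pi.single (eH n (m) s (min s k) (Sum.inl (p, q))) (1 : ℂ))))
    (hb : ∀ p c, β' (eH n (m) s (min s k) (Sum.inr p)) c =
      ∑ q, a q * β' (eH n (m) s (min s k) (Sum.inl (p, q))) c)
    (hrel : ∀ η : Fin (2 * n) × Fin (2 * n) → ℂ, (∀ d, ∑ c, η c * β c d = 0) →
      ∀ d, ∑ c, η c * β' c d = 0) :
    Inv n k α (s + 1)
      (TU (uu n m s a) * β' * (TU (uu n m s a)).conjTranspose)
      (g * uu n m s a) := by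
  have hn : 0 < n := Nat.pos_of_ne_zero (NeZero.ne n)
  have hi1 : min s k ≤ s := min_le_left _ _
  have hi2 : min s k ≤ k := min_le_right _ _
  have hm : m + min s k ≤ 2 * n := by omega
  set u := uu n m s a with hu
  set Y := β' * (TU u).conjTranspose with hY
  have hYrel : ∀ η : Fin (2 * n) × Fin (2 * n) → ℂ, (∀ d, ∑ c, η c * β' c d = 0) →
      ∀ d, ∑ c, η c * Y c d = 0 := by
    intro η hη d
    have h1 : Matrix.vecMul η β' = 0 := by
      funext e
      exact hη e
    have h2 : Matrix.vecMul η Y = 0 := by
      rw [hY, ← Matrix.vecMul_vecMul, h1, Matrix.zero_vecMul]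
    exact congrFun h2 d
  have hβ'skew : ∀ p q c, β' (p, q) c = -β' (q, p) c := by
    intro p q c
    have h1 := hrel (Pi.single (p, q) 1 + Pi.single (q, p) 1) (by
      intro d
      simp only [Pi.add_apply, add_mul, Finset.sum_add_distrib]
      simp only [Pi.single_apply, ite_mul, one_mul, zero_mul, Finset.sum_ite_eq',
        Finset.mem_univ, if_true]
      rw [h.skew p q d]
      ring) c
    simp only [Pi.add_apply, add_mul, Finset.sum_add_distrib] at h1
    simp only [Pi.single_apply, ite_mul, one_mul, zero_mul, Finset.sum_ite_eq',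
      Finset.mem_univ, if_true] at h1
    linear_combination h1
  have hYskew : ∀ p q c, Y (p, q) c = -Y (q, p) c := by
    intro p q c
    simp only [hY, Matrix.mul_apply]
    rw [← Finset.sum_neg_distrib]
    apply Finset.sum_congr rfl
    intro d _
    rw [hβ'skew p q d]
    ring
  have hent : ∀ p q c, (TU u * β' * (TU u).conjTranspose) (p, q) c =
      ∑ a', ∑ b', u a' p * u b' q * Y (a', b') c := by
    intro p q c
    rw [Matrix.mul_assoc, ← hY, Matrix.mul_apply, Fintype.sum_prod_type]
    rfl
  refine ⟨?_, ?_, ?_, ?_, ?_⟩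
  · exact Matrix.isHermitian_mul_mul_conjTranspose (TU u) hh
  · intro p q c
    rw [hent, hent, Finset.sum_comm, ← Finset.sum_neg_distrib]
    apply Finset.sum_congr rfl
    intro b' _
    rw [← Finset.sum_neg_distrib]
    apply Finset.sum_congr rfl
    intro a' _
    rw [hYskew a' b' c]
    ring
  · intro p q hpk hpq hqs c
    rw [hent]
    have hps : p.val ≠ s := by omega
    have h1 : ∑ a', ∑ b', u a' p * u b' q * Y (a', b') c = ∑ b', u b' q * Y (p, b') c := by
      rw [Finset.sum_eq_single p]
      · apply Finset.sum_congr rfl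
        intro b' _
        rw [hu, i1_col' n _ s hsm hm a p p hps, if_pos rfl]
        ring
      · intro a' _ ha'
        apply Finset.sum_eq_zero
        intro b' _
        rw [hu, i1_col' n _ s hsm hm a a' p hps, if_neg ha']
        ring
      · intro hh
        exact absurd (Finset.mem_univ _) hh
    rw [h1]
    by_cases hqs' : q.val = s
    · have hq' : q = ix n s := by
        apply Fin.ext
        rw [i0_ix n s (by omega)]
        exact hqs'
      have hpi : p.val < min s k := by omega
      have hp' : ix n p.val = p := by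
        apply Fin.ext
        rw [i0_ix n _ p.isLt]
      have h2 : Y (p, ix n s) c = ∑ r, a r * Y (p, ix n (m + r)) c := by
        have h3 := fun d => hb ⟨p.val, hpi⟩ d
        simp only [eH, hp'] at h3
        simp only [hY, Matrix.mul_apply, h3, Finset.sum_mul, Finset.mul_sum]
        rw [Finset.sum_comm]
        apply Finset.sum_congr rfl
        intro r _
        apply Finset.sum_congr rfl
        intro d _
        ring
      rw [hq', hu]
      simp only [i1_col, sub_mul, Finset.sum_sub_distrib, ite_mul, one_mul, zero_mul,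
        Finset.sum_ite_eq', Finset.mem_univ, if_true]
      rw [h2, sub_eq_zero]
      simp only [Finset.sum_mul]
      rw [Finset.sum_comm]
      apply Finset.sum_congr rfl
      intro r _
      rw [Finset.sum_eq_single (ix n (m + r))]
      · rw [if_pos rfl]
        ring
      · intro b' _ hb'
        rw [if_neg hb']
        ring
      · intro hh
        exact absurd (Finset.mem_univ _) hh
    · have h2 : ∀ d, β' (p, q) d = 0 := by
        intro d
        have h3 := hrel (Pi.single (p, q) 1) (by
          intro d
          simp only [Pi.single_apply, ite_mul, one_mul, zero_mul, Finset.sum_ite_eq',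
            Finset.mem_univ, if_true]
          exact h.zero p q hpk hpq (by omega) d) d
        simpa only [Pi.single_apply, ite_mul, one_mul, zero_mul, Finset.sum_ite_eq',
          Finset.mem_univ, if_true] using h3
      rw [Finset.sum_eq_single q]
      · have h3 : Y (p, q) c = 0 := by
          rw [hY, Matrix.mul_apply]
          apply Finset.sum_eq_zero
          intro d _
          rw [h2 d, zero_mul]
        rw [h3, mul_zero]
      · intro b' _ hb'
        rw [hu, i1_col' n _ s hsm hm a b' q hqs', if_neg hb', zero_mul]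
      · intro hh
        exact absurd (Finset.mem_univ _) hh
  · rw [Matrix.det_mul, hu, i0_det n _ s hsm hm a, mul_one]
    exact h.unit
  · intro ξ
    obtain ⟨t, ht⟩ := hform (push u ξ)
    have hc : ∑ p, t p • (Pi.single (eH n (m) s (min s k) (Sum.inr p)) (1 : ℂ) -
          ∑ q, a q • Pi.single (eH n (m) s (min s k) (Sum.inl (p, q))) (1 : ℂ)) =
        push u (∑ p : Fin (min s k), t p • Pi.single (ix n p, ix n s) (1 : ℂ)) := by
      rw [i1_sum]
      apply Finset.sum_congr rfl
      intro p _
      rw [hu, i1_corr n _ s hi1 hsm hm a p]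
    rw [hc] at ht
    set τ : Fin (2 * n) × Fin (2 * n) → ℂ :=
      ∑ p : Fin (min s k), t p • Pi.single (ix n p, ix n s) (1 : ℂ) with hτ
    obtain ⟨σ, hσ1, hσ2⟩ := h.form (push u ξ + push u τ)
    have hfix : push u σ = σ := by
      rw [hu]
      apply i1_fix n _ s hsm hm a σ
      intro p q hpq
      obtain ⟨h1, h2, h3⟩ := hσ1 p q hpq
      constructor <;> omega
    refine ⟨τ + σ, ?_, ?_⟩
    · intro p q hpq
      by_cases h1 : σ (p, q) = 0
      · have h2 : τ (p, q) ≠ 0 := by
          intro h2
          apply hpq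
          rw [Pi.add_apply, h1, h2, add_zero]
        rw [hτ, Finset.sum_apply] at h2
        obtain ⟨r, -, hr⟩ := Finset.exists_ne_zero_of_sum_ne_zero h2
        rw [Pi.smul_apply, Pi.single_apply] at hr
        by_cases h3 : (p, q) = (ix n r, ix n s)
        · rw [Prod.mk.injEq] at h3
          have h4 := congrArg Fin.val h3.1
          have h5 := congrArg Fin.val h3.2
          rw [i0_ix n _ (by omega)] at h4 h5
          have := r.isLt
          omega
        · rw [if_neg h3] at hr
          simp at hr
      · obtain ⟨h2, h3, h4⟩ := hσ1 p q h1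
        omega
    · rw [i0_TU, ht, hσ2, ← i0_push, i0_add u ξ (τ + σ), i0_add u τ σ, hfix, add_assoc]


theorem q2_posDef (n k m s : ℕ) [NeZero n] (hk : k ≤ n) (hkm : k ≤ m) (hsm : s < m) (hmk : m + k ≤ 2 * n)
    (α β : Matrix (Fin (2 * n) × Fin (2 * n)) (Fin (2 * n) × Fin (2 * n)) ℂ)
    (g : Matrix (Fin (2 * n)) (Fin (2 * n)) ℂ) (hp : StrictPos n k α) (h : Inv n k α s β g) :
    (β.submatrix (eH n (m) s (min s k)) (eH n (m) s (min s k))).PosDef := by
  have hn : 0 < n := Nat.pos_of_ne_zero (NeZero.ne n)
  have hi1 : min s k ≤ s := min_le_left _ _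
  have hi2 : min s k ≤ k := min_le_right _ _
  have hm : m + min s k ≤ 2 * n := by omega
  rw [Matrix.posDef_iff_dotProduct_mulVec]
  refine ⟨h.herm.submatrix _, ?_⟩
  intro x hx
  rw [i2_sub]
  set e := eH n (m) s (min s k) with he
  have hinj : Function.Injective e := i0_eH n _ s _ hi1 hsm hm
  have hfst : ∀ a, (e a).1.val < min s k := by
    intro a
    rcases a with t | p
    · simp only [he, eH]
      rw [i0_ix n _ (by omega)]
      exact t.1.isLt
    · simp only [he, eH]
      rw [i0_ix n _ (by omega)]
      exact p.isLt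
  obtain ⟨σ, hσ1, hσ2⟩ := h.form (i2_xi e x)
  set A := i2_xi e x + σ with hA
  have hrow : ∀ p q, k ≤ p.val → A (p, q) = 0 := by
    intro p q hpk
    rw [hA, Pi.add_apply, i2_xi_zero e x (p, q), zero_add]
    · by_contra h1
      have := (hσ1 p q h1).1
      omega
    · intro a ha
      have := hfst a
      rw [← ha] at this
      simp only at this
      omega
  have hns : ∃ a b, A (a, b) ≠ A (b, a) := by
    obtain ⟨a, ha⟩ := Function.ne_iff.mp hx
    have ha' : star (x a) ≠ 0 := by
      rw [star_ne_zero]
      exact ha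
    refine ⟨(e a).1, (e a).2, ?_⟩
    have h1 : A ((e a).1, (e a).2) = star (x a) := by
      have h2 : σ ((e a).1, (e a).2) = 0 := by
        by_contra h2
        have h3 := (hσ1 _ _ h2).2.2
        rcases a with t | p
        · simp only [he, eH] at h3
          rw [i0_ix n _ (by omega)] at h3
          omega
        · simp only [he, eH] at h3
          rw [i0_ix n _ (by omega)] at h3
          omega
      rw [hA, Pi.add_apply, h2, add_zero]
      exact i2_xi_apply e hinj x a
    have h2 : A ((e a).2, (e a).1) = 0 := by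
      rcases a with t | p
      · apply hrow
        simp only [he, eH]
        rw [i0_ix n _ (by omega)]
        omega
      · rw [hA, Pi.add_apply, i2_xi_zero e x, zero_add]
        · by_contra h2
          have h3 := (hσ1 _ _ h2).2.1
          simp only [he, eH] at h3
          rw [i0_ix n _ (by omega), i0_ix n _ (by omega)] at h3
          omega
        · intro a' ha'
          have h3 := hfst a'
          rw [← ha'] at h3
          simp only [he, eH] at h3
          rw [i0_ix n _ (by omega)] at h3
          omega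
    rw [h1, h2]
    exact ha'
  have hpush := i0_nonsym g h.unit A hns
  have hbiv := i2_rows n k hk A hrow
  rw [hσ2, Complex.lt_def]
  constructor
  · rw [hbiv, i0_biv]
    apply hp
    rw [← i0_biv, ← hbiv]
    exact hpush
  · rw [← hσ2, i0_herm β h.herm]
    rfl


theorem q4_entry (n k m s : ℕ) [NeZero n] (hsm : s < m) (hmk : m + k ≤ 2 * n)
    (a : Fin (min s k) → ℂ) (v : Fin (2 * n) × Fin (2 * n) → ℂ) (c : Fin (2 * n) × Fin (2 * n))
    (h1 : c.1.val ≠ s) (h2 : c.2.val ≠ s) :
    ((TU (uu n m s a)).mulVec v) c = v c := by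
  have hm : m + min s k ≤ 2 * n := by
    have := min_le_right s k
    omega
  rw [i0_TUv]
  simp only [i0_uu n (m) s hsm hm, if_neg h1, if_neg h2]
  simp

theorem q4_inv (n k m s : ℕ) [NeZero n] (hsm : s < m) (hmk : m + k ≤ 2 * n)
    (a : Fin (min s k) → ℂ) (v : Fin (2 * n) × Fin (2 * n) → ℂ) :
    eval ((TU (uu n m s a)).mulVec v) (FFm n m k (s + 1)) = eval v (FFm n m k (s + 1)) := by
  have hm : m + min s k ≤ 2 * n := by
    have := min_le_right s k
    omega
  unfold FFm
  rw [map_mul, map_mul, map_prod, map_prod]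
  congr 1
  · refine Finset.prod_congr rfl fun t ht => ?_
    rw [Finset.mem_Ico] at ht
    unfold DD
    rw [RingHom.map_det, RingHom.map_det]
    congr 1
    ext p q
    simp only [RingHom.mapMatrix_apply, Matrix.map_apply, Matrix.of_apply, eval_X]
    have hp := p.2
    have hq := q.2
    have h1 := min_le_left t k
    have h2 := min_le_right t k
    apply q4_entry n k m s hsm hmk
    · change (ix n p.val).val ≠ s
      rw [i0_ix n _ (by omega)]
      omega
    · change (ix n (m + q.val)).val ≠ s
      rw [i0_ix n _ (by omega)]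
      omega
  · rw [i0_TUv, p1_equivariant, i0_det n _ s hsm hm, one_mul]


end H87HP
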