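import Pool.Agent.Lib.H87.HopfHP.P1
import Pool.Agent.Lib.H2K.S4
import Pool.Agent.Lib.H2K.R1

/-!
# H87 HopfHP P2: the downward induction of H2K with the pivots in the columns `m + q`, inside the hyperplane
-/

open MvPolynomial

namespace H87HP

open H2K

theorem q_FF (n k m s : ℕ) [NeZero n] (hs : 1 ≤ s) :
    H2K.detT (eH n m s (min s k)) * FFm n m k s = FFm n m k (s + 1) := by
  have h : H2K.detT (eH n m s (min s k)) = DD n m (min s k) := rfl
  unfold FFm
  rw [Finset.prod_Ico_succ_top hs, h]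
  ring

theorem q_key (n k m : ℕ) [NeZero n] (hk : k ≤ n) (hkm : k ≤ m) (hmk : m + k ≤ 2 * n - 1)
    (α : Matrix (Fin (2 * n) × Fin (2 * n)) (Fin (2 * n) × Fin (2 * n)) ℂ) (hp : StrictPos n k α)
    (hlast : ∀ (β : Matrix (Fin (2 * n) × Fin (2 * n)) (Fin (2 * n) × Fin (2 * n)) ℂ)
        (g : Matrix (Fin (2 * n)) (Fin (2 * n)) ℂ), Inv n k α m β g → HypM g →
        0 ≤ (W β (FFm n m k m) (FFm n m k m)).re) :
    ∀ d s, 1 ≤ s → s + d = m →
      ∀ (β : Matrix (Fin (2 * n) × Fin (2 * n)) (Fin (2 * n) × Fin (2 * n)) ℂ)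
        (g : Matrix (Fin (2 * n)) (Fin (2 * n)) ℂ), Inv n k α s β g → HypM g →
        0 ≤ (W β (FFm n m k s) (FFm n m k s)).re := by
  intro d
  induction d with
  | zero =>
    intro s h1 hsd β g hI hg
    have : s = m := by omega
    rw [this] at hI ⊢
    exact hlast β g hI hg
  | succ d ih =>
    intro s h1 hsd β g hI hg
    have hsm : s < m := by omega
    have hi1 : min s k ≤ s := min_le_left _ _
    have hi2 : min s k ≤ k := min_le_right _ _
    have hm : m + min s k ≤ 2 * n := by omega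
    apply s4_step (eH n m s (min s k)) (i0_eH n _ s _ hi1 hsm hm) β hI.herm
      (q2_posDef n k m s hk hkm hsm (by omega) α β g hp hI) (FFm n m k s)
    intro a β' hh hform hb hrel
    rw [q_FF n k m s h1]
    have hI' := q1_inv n k m s hsm (by omega) α β β' g hI a hh hform hb hrel
    have hg' := hyp_uu n m s hsm (by omega) a g hg
    have h2 := ih (s + 1) (by omega) (by omega) _ _ hI' hg'
    rw [r1_push β' (TU (uu n m s a)) (FFm n m k (s + 1))
      (q4_inv n k m s hsm (by omega) a)] at h2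
    exact h2

theorem q_start (n k m : ℕ) [NeZero n] (hk : k ≤ n) (hkm : k ≤ m) (hm : 1 ≤ m) (hmk : m + k ≤ 2 * n - 1)
    (α : Matrix (Fin (2 * n) × Fin (2 * n)) (Fin (2 * n) × Fin (2 * n)) ℂ)
    (hα : α.IsHermitian) (hs : ∀ p q c, α (p, q) c = -α (q, p) c) (hp : StrictPos n k α)
    (hlast : ∀ (β : Matrix (Fin (2 * n) × Fin (2 * n)) (Fin (2 * n) × Fin (2 * n)) ℂ)
        (g : Matrix (Fin (2 * n)) (Fin (2 * n)) ℂ), Inv n k α m β g → HypM g →
        0 ≤ (W β (FFm n m k m) (FFm n m k m)).re) :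
    0 ≤ (W α (hPf n) (hPf n)).re := by
  have hI : Inv n k α 1 α 1 := by
    refine ⟨hα, hs, ?_, ?_, ?_⟩
    · intro p q _ h1 h2
      omega
    · rw [Matrix.det_one]
      exact isUnit_one
    · intro ξ
      refine ⟨0, ?_, ?_⟩
      · intro p q h
        exact absurd rfl h
      · rw [add_zero, i0_one]
  have hg : HypM (1 : Matrix (Fin (2 * n)) (Fin (2 * n)) ℂ) := by
    intro p q hp' hq'
    rw [Matrix.one_apply_ne]
    rintro rfl
    exact hq' hp'
  have h1 := q_key n k m hk hkm hmk α hp hlast (m - 1) 1 le_rfl (by omega) α 1 hI hg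
  have h2 : FFm n m k 1 = hPf n := by
    unfold FFm
    simp
  rw [h2] at h1
  exact h1

end H87HP
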