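import Pool.Agent.Lib.H87.HopfHP.P1
import Pool.Agent.Lib.H2K.P3

/-!
# H87 HopfHP P3: arrays supported on `{p, q < m}`, `m ≤ 2 k' + 1`, are bivectors of rank `≤ 2 k'` of the hyperplane
-/

open scoped ComplexOrder

namespace H87HP

open H2K

/-- `α` is strictly positive on the bivectors of rank `≤ 2 k` of the hyperplane of the first `2 n - 1` vectors -/
def StrictW (n k : ℕ) (α : Matrix (Fin (2 * n) × Fin (2 * n)) (Fin (2 * n) × Fin (2 * n)) ℂ) : Prop :=
  ∀ z w : Fin k → Fin (2 * n) → ℂ, (∀ l q, q.val = 2 * n - 1 → z l q = 0 ∧ w l q = 0) →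
    (∃ a b, biv z w (a, b) ≠ biv z w (b, a)) → 0 < (qf α (biv z w)).re

theorem q_card (n m : ℕ) : (Finset.univ.filter fun p : Fin (2 * n) => p.val < m).card ≤ m := by
  have h1 : (Finset.univ.filter fun p : Fin (2 * n) => p.val < m).card ≤ (Finset.range m).card := by
    apply Finset.card_le_card_of_injOn (fun p : Fin (2 * n) => p.val)
    · intro p hp
      have hp' := Finset.mem_coe.mp hp
      rw [Finset.mem_filter] at hp'
      exact Finset.mem_coe.mpr (Finset.mem_range.mpr hp'.2)
    · intro p _ q _ hpq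
      exact Fin.ext hpq
  rw [Finset.card_range] at h1
  exact h1

/-- the bivector -/
theorem q_biv (n m k' : ℕ) (hmk : m ≤ 2 * k' + 1) (X : Fin (2 * n) × Fin (2 * n) → ℂ)
    (hX : ∀ p q, X (p, q) ≠ 0 → p.val < m ∧ q.val < m) :
    ∃ z w : Fin k' → Fin (2 * n) → ℂ, (∀ l q, m ≤ q.val → z l q = 0 ∧ w l q = 0) ∧
      ∀ p q, X (p, q) - X (q, p) = biv z w (p, q) - biv z w (q, p) := by
  obtain ⟨z, w, hzw⟩ := p3_skew (2 * n) k'
    (Finset.univ.filter fun p : Fin (2 * n) => p.val < m) ((q_card n m).trans hmk)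
    (fun p q => X (p, q) - X (q, p)) (by intro i j; ring) (by
      intro i j hij
      simp only [Finset.mem_filter, Finset.mem_univ, true_and]
      by_cases h1 : X (i, j) = 0
      · have h2 : X (j, i) ≠ 0 := by
          intro h2
          apply hij
          rw [h1, h2, sub_zero]
        have := hX j i h2
        omega
      · have := hX i j h1
        omega)
  refine ⟨fun l q => if q.val < m then z l q else 0, fun l q => if q.val < m then w l q else 0, ?_, ?_⟩
  · intro l q hq
    simp only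
    rw [if_neg (by omega), if_neg (by omega)]
    exact ⟨rfl, rfl⟩
  · intro p q
    unfold biv
    rw [← Finset.sum_sub_distrib]
    by_cases hp : p.val < m
    · by_cases hq : q.val < m
      · simp only [hp, hq, if_true]
        rw [hzw p q]
        refine Finset.sum_congr rfl fun l _ => ?_
        ring
      · have h0 : X (p, q) - X (q, p) = 0 := by
          have h1 : X (p, q) = 0 := by
            by_contra h
            exact hq (hX p q h).2
          have h2 : X (q, p) = 0 := by
            by_contra h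
            exact hq (hX q p h).1
          rw [h1, h2, sub_zero]
        rw [h0]
        symm
        refine Finset.sum_eq_zero fun l _ => ?_
        simp only [hq, if_false]
        ring
    · have h0 : X (p, q) - X (q, p) = 0 := by
        have h1 : X (p, q) = 0 := by
          by_contra h
          exact hp (hX p q h).1
        have h2 : X (q, p) = 0 := by
          by_contra h
          exact hp (hX q p h).2
        rw [h1, h2, sub_zero]
      rw [h0]
      symm
      refine Finset.sum_eq_zero fun l _ => ?_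
      simp only [hp, if_false]
      ring

theorem q_pushW (n m : ℕ) (hm : m ≤ 2 * n - 1) (g : Matrix (Fin (2 * n)) (Fin (2 * n)) ℂ) (hg : HypM g)
    (z : Fin (2 * n) → ℂ) (hz : ∀ q : Fin (2 * n), m ≤ q.val → z q = 0) (q : Fin (2 * n))
    (hq : q.val = 2 * n - 1) : g.mulVec z q = 0 := by
  unfold Matrix.mulVec dotProduct
  refine Finset.sum_eq_zero fun r _ => ?_
  by_cases hr : m ≤ r.val
  · rw [hz r hr, mul_zero]
  · have h := hg q r hq (by omega)
    show g q r * z r = 0
    rw [h, zero_mul]

/-- strict positivity on the arrays supported on `{p, q < m}` -/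
theorem q_strict (n m k' : ℕ) (hmk : m ≤ 2 * k' + 1) (hm : m ≤ 2 * n - 1)
    (α : Matrix (Fin (2 * n) × Fin (2 * n)) (Fin (2 * n) × Fin (2 * n)) ℂ) (hα : α.IsHermitian)
    (hs : ∀ p q c, α (p, q) c = -α (q, p) c) (hW : StrictW n k' α)
    (g : Matrix (Fin (2 * n)) (Fin (2 * n)) ℂ) (hg : HypM g) (hu : IsUnit g.det)
    (X : Fin (2 * n) × Fin (2 * n) → ℂ) (hX : ∀ p q, X (p, q) ≠ 0 → p.val < m ∧ q.val < m)
    (hns : ∃ a b, X (a, b) ≠ X (b, a)) : 0 < (qf α (push g X)).re := by
  obtain ⟨z, w, hzw, hpart⟩ := q_biv n m k' hmk X hX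
  rw [i0_skew α hα hs (push g X) (push g (biv z w)) (i0_part g X (biv z w) hpart), i0_biv]
  apply hW
  · intro l q hq
    exact ⟨q_pushW n m hm g hg _ (fun r hr => (hzw l r hr).1) q hq,
      q_pushW n m hm g hg _ (fun r hr => (hzw l r hr).2) q hq⟩
  · rw [← i0_biv]
    apply i0_nonsym g hu
    obtain ⟨a, b, hab⟩ := hns
    refine ⟨a, b, ?_⟩
    intro h
    apply hab
    have h2 := hpart a b
    rw [h, sub_self] at h2
    exact sub_eq_zero.1 h2

/-- weak positivity -/
theorem q_weak (n m k' : ℕ) (hmk : m ≤ 2 * k' + 1) (hm : m ≤ 2 * n - 1)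
    (α : Matrix (Fin (2 * n) × Fin (2 * n)) (Fin (2 * n) × Fin (2 * n)) ℂ) (hα : α.IsHermitian)
    (hs : ∀ p q c, α (p, q) c = -α (q, p) c) (hW : StrictW n k' α)
    (g : Matrix (Fin (2 * n)) (Fin (2 * n)) ℂ) (hg : HypM g) (hu : IsUnit g.det)
    (X : Fin (2 * n) × Fin (2 * n) → ℂ) (hX : ∀ p q, X (p, q) ≠ 0 → p.val < m ∧ q.val < m) :
    0 ≤ (qf α (push g X)).re := by
  by_cases hns : ∃ a b, X (a, b) ≠ X (b, a)
  · exact (q_strict n m k' hmk hm α hα hs hW g hg hu X hX hns).le
  · push Not at hns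
    have h1 : ∀ p q, X (p, q) - X (q, p) = (0 : Fin (2 * n) × Fin (2 * n) → ℂ) (p, q) -
        (0 : Fin (2 * n) × Fin (2 * n) → ℂ) (q, p) := by
      intro p q
      rw [hns p q]
      simp
    rw [i0_skew α hα hs (push g X) (push g 0) (i0_part g X 0 h1)]
    simp [push, qf]

end H87HP
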