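import Pool.Agent.Lib.H87.HopfHP.P3
import Pool.Agent.Lib.H87.HopfHP.B1
import Pool.Agent.Lib.H87.HopfHP.B2

/-!
# H87 HopfHP P4: the skew pivot on the index set `{k ≤ p < 2 n - k}`, new vector `w = e_(k-1) + ∑ a_j e_(k+j)`
-/

open MvPolynomial
open scoped ComplexOrder

namespace H87HP

open H2K (qf W hPf ix push TU)

/-- number of middle indices -/
abbrev rr (n k : ℕ) : ℕ := 2 * n - 2 * k

/-- middle indices -/
def wj (n k : ℕ) [NeZero n] (p : Fin (rr n k)) : Fin (2 * n) := ix n (k + p)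

theorem wj_val (n k : ℕ) [NeZero n] (p : Fin (rr n k)) : (wj n k p).val = k + p.val := by
  have := p.2
  unfold rr at this
  exact H2K.i0_ix n _ (by omega)

theorem wj_lt (n k : ℕ) [NeZero n] (p : Fin (rr n k)) : (wj n k p).val < 2 * n - k := by
  have := p.2
  unfold rr at this
  rw [wj_val]
  omega

theorem wj_inj (n k : ℕ) [NeZero n] : Function.Injective (wj n k) := by
  intro p q h
  have h1 := congrArg Fin.val h
  rw [wj_val, wj_val] at h1
  exact Fin.ext (by omega)

theorem zk_val (n k : ℕ) [NeZero n] (hk : k ≤ n) : (ix n (k - 1)).val = k - 1 := by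
  have hn : 0 < n := Nat.pos_of_ne_zero (NeZero.ne n)
  exact H2K.i0_ix n _ (by omega)

theorem wj_ne (n k : ℕ) [NeZero n] (hk1 : 1 ≤ k) (hk : k ≤ n) (p : Fin (rr n k)) :
    wj n k p ≠ ix n (k - 1) := by
  intro h
  have h1 := congrArg Fin.val h
  rw [wj_val, zk_val n k hk] at h1
  omega

/-- coordinates -/
def eQ (n k : ℕ) [NeZero n] : PP (rr n k) ⊕ Fin (rr n k) → Fin (2 * n) × Fin (2 * n)
  | Sum.inl t => (wj n k t.1.1, wj n k t.1.2)
  | Sum.inr p => (ix n (k - 1), wj n k p)

theorem eQ_inj (n k : ℕ) [NeZero n] (hk1 : 1 ≤ k) (hk : k ≤ n) : Function.Injective (eQ n k) := by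
  intro x y hxy
  rcases x with t | p <;> rcases y with t' | p'
  · simp only [eQ, Prod.mk.injEq] at hxy
    exact congrArg Sum.inl (Subtype.ext (Prod.ext (wj_inj n k hxy.1) (wj_inj n k hxy.2)))
  · simp only [eQ, Prod.mk.injEq] at hxy
    exact absurd hxy.1 (wj_ne n k hk1 hk _)
  · simp only [eQ, Prod.mk.injEq] at hxy
    exact absurd hxy.1.symm (wj_ne n k hk1 hk _)
  · simp only [eQ, Prod.mk.injEq] at hxy
    exact congrArg Sum.inr (wj_inj n k hxy.2)

theorem eQ_lt (n k : ℕ) [NeZero n] (hk1 : 1 ≤ k) (hk : k ≤ n) (x : PP (rr n k) ⊕ Fin (rr n k)) :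
    k - 1 ≤ (eQ n k x).1.val ∧ (eQ n k x).1.val < (eQ n k x).2.val ∧ (eQ n k x).2.val < 2 * n - k := by
  rcases x with t | p
  · simp only [eQ, wj_val]
    have h1 : t.1.1.val < t.1.2.val := t.2
    have h2 := t.1.2.2
    unfold rr at h2
    omega
  · simp only [eQ, wj_val, zk_val n k hk]
    have h2 := p.2
    unfold rr at h2
    omega

/-- `w = e_(k-1) + ∑ a_j e_(k+j)` -/
noncomputable def wk (n k : ℕ) [NeZero n] (a : Fin (rr n k) → ℂ) (A : Fin (2 * n)) : ℂ :=
  dl A (ix n (k - 1)) + ∑ j, a j * dl A (wj n k j)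

/-- `y = ∑ s_p e_(k+p)` -/
noncomputable def yk (n k : ℕ) [NeZero n] (s : Fin (rr n k) → ℂ) (A : Fin (2 * n)) : ℂ :=
  ∑ p, s p * dl A (wj n k p)

/-- the correction term -/
noncomputable def Dk (n k : ℕ) [NeZero n] (a s : Fin (rr n k) → ℂ) : Fin (2 * n) × Fin (2 * n) → ℂ :=
  ∑ p, s p • (Pi.single (eQ n k (Sum.inr p)) (1 : ℂ) -
    ∑ t, (LL t).mulVec a p • Pi.single (eQ n k (Sum.inl t)) (1 : ℂ))

theorem Dk_skew (n k : ℕ) [NeZero n] (a s : Fin (rr n k) → ℂ) (P Q : Fin (2 * n)) :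
    Dk n k a s (P, Q) - Dk n k a s (Q, P) = wk n k a P * yk n k s Q - wk n k a Q * yk n k s P := by
  have h1 : ∀ c, Dk n k a s c = ∑ p, s p * (dl c.1 (ix n (k - 1)) * dl c.2 (wj n k p) -
      ∑ t : PP (rr n k), (LL t).mulVec a p * (dl c.1 (wj n k t.1.1) * dl c.2 (wj n k t.1.2))) := by
    intro c
    unfold Dk
    rw [Finset.sum_apply]
    refine Finset.sum_congr rfl fun p _ => ?_
    rw [Pi.smul_apply, Pi.sub_apply, Finset.sum_apply, smul_eq_mul]
    simp only [Pi.smul_apply, smul_eq_mul, eQ, single_dl]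
  rw [h1, h1, ← Finset.sum_sub_distrib]
  unfold yk
  rw [Finset.mul_sum, Finset.mul_sum, ← Finset.sum_sub_distrib]
  refine Finset.sum_congr rfl fun p _ => ?_
  have h2 := sumL (fun i j => dl P (wj n k i) * dl Q (wj n k j) - dl Q (wj n k i) * dl P (wj n k j))
    (fun i j => by ring) a p
  simp only [mul_sub, Finset.sum_sub_distrib] at h2
  have h3 : ∑ j, a j * (dl P (wj n k p) * dl Q (wj n k j)) =
      dl P (wj n k p) * ∑ j, a j * dl Q (wj n k j) := by
    rw [Finset.mul_sum]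
    exact Finset.sum_congr rfl fun j _ => by ring
  have h4 : ∑ j, a j * (dl Q (wj n k p) * dl P (wj n k j)) =
      dl Q (wj n k p) * ∑ j, a j * dl P (wj n k j) := by
    rw [Finset.mul_sum]
    exact Finset.sum_congr rfl fun j _ => by ring
  rw [h3, h4] at h2
  unfold wk
  linear_combination (-s p) * h2

theorem yk_supp (n k : ℕ) [NeZero n] (s : Fin (rr n k) → ℂ) (A : Fin (2 * n))
    (h : yk n k s A ≠ 0) : k ≤ A.val ∧ A.val < 2 * n - k := by
  unfold yk at h
  obtain ⟨p, -, hp⟩ := Finset.exists_ne_zero_of_sum_ne_zero h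
  unfold dl at hp
  by_cases h1 : A = wj n k p
  · rw [h1]
    refine ⟨?_, wj_lt n k p⟩
    rw [wj_val]
    omega
  · rw [if_neg h1, mul_zero] at hp
    exact absurd rfl hp

theorem wk_supp (n k : ℕ) [NeZero n] (hk1 : 1 ≤ k) (hk : k ≤ n) (a : Fin (rr n k) → ℂ) (A : Fin (2 * n))
    (h : wk n k a A ≠ 0) : k - 1 ≤ A.val ∧ A.val < 2 * n - k := by
  have hn : 0 < n := Nat.pos_of_ne_zero (NeZero.ne n)
  by_cases h1 : A = ix n (k - 1)
  · rw [h1, zk_val n k hk]
    omega
  · have h2 : yk n k a A ≠ 0 := by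
      intro h3
      apply h
      unfold wk
      unfold yk at h3
      rw [h3, dl, if_neg h1, add_zero]
    have := yk_supp n k a A h2
    omega

/-- the change of basis -/
noncomputable def uK (n k : ℕ) [NeZero n] (a : Fin (rr n k) → ℂ) :
    Matrix (Fin (2 * n)) (Fin (2 * n)) ℂ :=
  fun A P => if P = ix n (k - 1) then wk n k a A else dl A P

theorem uK_ne (n k : ℕ) [NeZero n] (a : Fin (rr n k) → ℂ) (A P : Fin (2 * n)) (hP : P ≠ ix n (k - 1)) :
    uK n k a A P = dl A P := by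
  unfold uK
  rw [if_neg hP]

theorem uK_eq (n k : ℕ) [NeZero n] (a : Fin (rr n k) → ℂ) (A : Fin (2 * n)) :
    uK n k a A (ix n (k - 1)) = wk n k a A := by
  unfold uK
  rw [if_pos rfl]

theorem uK_det (n k : ℕ) [NeZero n] (hk1 : 1 ≤ k) (hk : k ≤ n) (a : Fin (rr n k) → ℂ) :
    (uK n k a).det = 1 := by
  have h : uK n k a = 1 + Matrix.replicateCol Unit (fun A => ∑ j, a j * dl A (wj n k j)) *
      Matrix.replicateRow Unit (Pi.single (ix n (k - 1)) (1 : ℂ)) := by
    ext A P
    rw [Matrix.add_apply, Matrix.mul_apply, Matrix.one_apply]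
    simp only [Finset.univ_unique, Finset.sum_singleton, Matrix.replicateCol_apply,
      Matrix.replicateRow_apply]
    unfold uK
    by_cases hP : P = ix n (k - 1)
    · rw [if_pos hP, hP, Pi.single_eq_same, mul_one]
      rfl
    · rw [if_neg hP, Pi.single_eq_of_ne hP, mul_zero, add_zero]
      rfl
  rw [h, Matrix.det_one_add_replicateCol_mul_replicateRow, single_dotProduct]
  have h2 : ∀ j, ix n (k - 1) ≠ wj n k j := fun j h => wj_ne n k hk1 hk j h.symm
  unfold dl
  simp [h2]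

/-- `u y = y` for `y` supported on the indices `≠ k - 1` -/
theorem uK_mulVec (n k : ℕ) [NeZero n] (a : Fin (rr n k) → ℂ) (y : Fin (2 * n) → ℂ)
    (hy : y (ix n (k - 1)) = 0) : (uK n k a).mulVec y = y := by
  funext A
  show ∑ P, uK n k a A P * y P = y A
  have h1 : ∀ P, uK n k a A P * y P = if A = P then y P else 0 := by
    intro P
    by_cases hP : P = ix n (k - 1)
    · rw [hP, hy]
      simp
    · rw [uK_ne n k a A P hP, dl]
      split_ifs <;> ring
  simp only [h1, Finset.sum_ite_eq, Finset.mem_univ, if_true]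

theorem uK_mul (n k : ℕ) [NeZero n] (hk1 : 1 ≤ k) (hk : k ≤ n) (a : Fin (rr n k) → ℂ) :
    uK n k a * uK n k (-a) = 1 := by
  ext A P
  rw [Matrix.mul_apply]
  by_cases hP : P = ix n (k - 1)
  · subst hP
    have h1 : ∑ B, uK n k a A B * uK n k (-a) B (ix n (k - 1)) =
        (uK n k a).mulVec ((Pi.single (ix n (k - 1)) 1 : Fin (2 * n) → ℂ) + yk n k (-a)) A := by
      show _ = ∑ B, uK n k a A B * ((Pi.single (ix n (k - 1)) 1 : Fin (2 * n) → ℂ) + yk n k (-a)) B
      refine Finset.sum_congr rfl fun B _ => ?_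
      rw [uK_eq]
      congr 1
      unfold wk
      rw [Pi.add_apply]
      congr 1
      unfold dl
      rw [Pi.single_apply]
    rw [h1, Matrix.mulVec_add, Matrix.mulVec_single_one, uK_mulVec n k a (yk n k (-a))]
    · rw [Pi.add_apply]
      have h2 : (uK n k a).col (ix n (k - 1)) A = wk n k a A := uK_eq n k a A
      rw [h2]
      unfold wk yk
      have h3 : ∑ p, (-a) p * dl A (wj n k p) = -∑ p, a p * dl A (wj n k p) := by
        rw [← Finset.sum_neg_distrib]
        exact Finset.sum_congr rfl fun p _ => by rw [Pi.neg_apply]; ring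
      rw [h3]
      unfold dl
      rw [Matrix.one_apply]
      ring
    · by_contra h
      have := (yk_supp n k (-a) _ h).1
      rw [zk_val n k hk] at this
      omega
  · have h1 : ∀ B, uK n k a A B * uK n k (-a) B P = if B = P then uK n k a A B else 0 := by
      intro B
      rw [uK_ne n k (-a) B P hP, dl]
      split_ifs <;> ring
    simp only [h1, Finset.sum_ite_eq', Finset.mem_univ, if_true]
    rw [uK_ne n k a A P hP, dl, Matrix.one_apply]

theorem hyp_uK (n k : ℕ) [NeZero n] (hk1 : 1 ≤ k) (hk : k ≤ n) (a : Fin (rr n k) → ℂ)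
    (g : Matrix (Fin (2 * n)) (Fin (2 * n)) ℂ) (hg : HypM g) : HypM (g * uK n k a) := by
  intro p q hp hq
  rw [Matrix.mul_apply]
  refine Finset.sum_eq_zero fun r _ => ?_
  by_cases hr : r.val = 2 * n - 1
  · have h1 : uK n k a r q = 0 := by
      by_cases hq' : q = ix n (k - 1)
      · rw [hq', uK_eq]
        by_contra h
        have := (wk_supp n k hk1 hk a r h).2
        omega
      · rw [uK_ne n k a r q hq', dl, if_neg]
        rintro rfl
        exact hq hr
    rw [h1, mul_zero]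
  · rw [hg p r hp hr, zero_mul]

end H87HP
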